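import Mathlib
import Pool.Agent.helper37.ND.Spec

/-!
# MP_baa4d7_al, THEOREM NE: Q1 for EVERY finite extension `E` (every `d`, every `U`) for blocks with a large central cyclic subgroup of the defect group. Definitions

The page is in the team store: `H10_MP_baa4d7_al_helper37.md`. `G` is the ambient group (in Q1 the group `E`), `N` a subgroup, `B = Bl M N χ`, `C = N ⊓ cz Z`, `H = N ⊓ nz Z`.
-/

set_option autoImplicit false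

namespace Pool.Agent.NE

open Pool.Agent.helper58.DC Pool.Agent.DI Pool.Agent.GR Pool.Agent.OB Pool.Agent.DR Pool.Agent.FI Pool.Agent.FI3 Pool.Agent.FI4 Pool.Agent.FI4I Pool.Agent.LE Pool.Agent.L5 Pool.Agent.NAB Pool.Agent.ND

section

variable {G : Type} [Group G]

/-- `GS` relative to the subgroup `N`: the characters `ψ` of `L` with `b(ψ)^N = B` and a unit class `z x`, `Zg z = Z`. -/
def GN (p e m : ℕ) (M : Ideal (integralClosure ℤ ℂ)) (N : Subgroup G) (χ : G → ℂ) (L Z : Subgroup G) : Set (G → ℂ) :=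
  {ψ | ψ ∈ IrrOn L ∧ SB M N ψ χ ∧ ∃ z x : G, Ucl p e m M L ψ z x ∧ Zg p e m z = Z}

/-- The standing hypothesis for `N`. -/
structure ZN (p e m t : ℕ) (M : Ideal (integralClosure ℤ ℂ)) (N : Subgroup G) (χ : G → ℂ) (Z : Subgroup G) (z x : G) : Prop where
  em : 2 * m + 5 ≤ e
  eb : 2 * m + bz p + m / 2 ≤ e
  tx : Tx p e t G
  ch : χ ∈ IrrOn N
  uc : Ucl p e m M N χ z x
  zz : Zg p e m z = Z

/-- `L` is one of the two subgroups `N`, `N ⊓ nz E`, `E = Eg z`. -/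
def L2 (p e : ℕ) (N : Subgroup G) (z : G) (L : Subgroup G) : Prop := L = N ∨ L = N ⊓ nz (Eg p e z)

open Classical in
/-- The indicator function of the orbit of `θ₀` under `H = N ⊓ nz Z`. -/
noncomputable def iH (N Z : Subgroup G) (θ₀ θ : G → ℂ) : ℂ := if ∃ h ∈ N ⊓ nz Z, cjF h θ₀ = θ then 1 else 0

/-- The row of `ψ` belongs to the orbit of `θ₀`, with the sign `ε`. -/
def Rw (p e m t : ℕ) (M : Ideal (integralClosure ℤ ℂ)) (N : Subgroup G) (χ : G → ℂ) (Z : Subgroup G) (ψ θ₀ : G → ℂ) (ε : ℂ) : Prop :=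
  ∀ θ ∈ GN p e m M N χ (N ⊓ cz Z) Z, ∀ ν : Z →* ℂˣ,
    mt (N ⊓ cz Z) ψ θ - mt (N ⊓ cz Z) ψ (st Z t ν θ) = ε * (iH N Z θ₀ θ - iH N Z θ₀ (st Z t ν θ))

/-- The characters of `L` whose row belongs to the orbit of `θ₀`. -/
def FF (p e m t : ℕ) (M : Ideal (integralClosure ℤ ℂ)) (N : Subgroup G) (χ : G → ℂ) (Z L : Subgroup G) (θ₀ : G → ℂ) : Set (G → ℂ) :=
  {ψ | ψ ∈ GN p e m M N χ L Z ∧ ∃ ε : ℂ, (ε = 1 ∨ ε = -1) ∧ Rw p e m t M N χ Z ψ θ₀ ε}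

/-- THE STRUCTURE THEOREM for `(N, χ)`, `Z`, `z`. -/
structure STR (p e m t : ℕ) (M : Ideal (integralClosure ℤ ℂ)) (N : Subgroup G) (χ : G → ℂ) (Z : Subgroup G) (z : G) : Prop where
  ex : ∀ L, L2 p e N z L → ∀ ψ ∈ GN p e m M N χ L Z, ∃ θ₀ ∈ GN p e m M N χ (N ⊓ cz Z) Z, ψ ∈ FF p e m t M N χ Z L θ₀
  ct : ∀ L, L2 p e N z L → ∀ θ₀ ∈ GN p e m M N χ (N ⊓ cz Z) Z,
    Nat.card (N ⊓ cz Z : Subgroup G) * (FF p e m t M N χ Z L θ₀).ncard = Nat.card {h : G // h ∈ N ⊓ nz Z ∧ cjF h θ₀ = θ₀}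
  df : ∀ θ₀ ∈ GN p e m M N χ (N ⊓ cz Z) Z, ∀ ψ ∈ FF p e m t M N χ Z N θ₀, ∀ ψ₁ ∈ FF p e m t M N χ Z (N ⊓ nz (Eg p e z)) θ₀, ∀ d : ℤ,
    (Defect p N ψ d ↔ Defect p (N ⊓ nz (Eg p e z)) ψ₁ d)
  ou : ∀ L, N ⊓ cz Z ≤ L → L ≤ N → ∀ ψ ∈ IrrOn L, ψ ∉ GN p e m M N χ L Z → ∀ θ ∈ GN p e m M N χ (N ⊓ cz Z) Z, ∀ ν : Z →* ℂˣ,
    mt (N ⊓ cz Z) ψ θ = mt (N ⊓ cz Z) ψ (st Z t ν θ)
  sm : ∀ θ ∈ GN p e m M N χ (N ⊓ cz Z) Z, ∀ ν : Z →* ℂˣ, st Z t ν θ ∈ GN p e m M N χ (N ⊓ cz Z) Z ∧ SB M (N ⊓ cz Z) (st Z t ν θ) θ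
  sz : ∀ θ ∈ GN p e m M N χ (N ⊓ cz Z) Z, Finite {θ' : G → ℂ // orb Z t θ θ'} ∧ p ^ 3 ≤ Nat.card {θ' : G → ℂ // orb Z t θ θ'}
  fx : ∀ θ ∈ GN p e m M N χ (N ⊓ cz Z) Z, ∀ n ∈ N ⊓ nz Z, SB M (N ⊓ cz Z) (cjF n θ) θ → ∀ k : ℕ, n ^ p ^ k ∈ cz Z → n ∈ cz Z

/-- `w` is a `p`-regular element which normalises `N` and `Z`. -/
structure WW (p : ℕ) (N Z : Subgroup G) (w : G) : Prop where
  re : PReg p w
  nn : w ∈ nz N
  nZ : w ∈ nz Z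

/-- The standing hypothesis with an element `w` which stabilises the block. -/
structure HW (p e m t : ℕ) (M : Ideal (integralClosure ℤ ℂ)) (N : Subgroup G) (χ : G → ℂ) (Z : Subgroup G) (z x w : G) : Prop where
  zn : ZN p e m t M N χ Z z x
  ww : WW p N Z w
  bs : SB M N (cjF w χ) χ

/-- `N⟨w⟩` -/
abbrev Nw (N : Subgroup G) (w : G) : Subgroup G := N ⊔ Subgroup.zpowers w

/-- The number of the characters of `C' = N' ⊓ cz Z` over `θ₀` in the orbit of `θ'` under `N' ⊓ nz Z`. -/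
noncomputable def rN' (N N' Z : Subgroup G) (θ₀ θ' : G → ℂ) : ℕ :=
  Nat.card {θ'' : G → ℂ // θ'' ∈ IrrOn (N' ⊓ cz Z) ∧ mt (N ⊓ cz Z) θ'' θ₀ ≠ 0 ∧ ∃ a ∈ N' ⊓ nz Z, cjF a θ' = θ''}

end

end Pool.Agent.NE
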