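import Mathlib
import Pool.Agent.helper37.NE.Defs

/-!
# MP_baa4d7_al, THEOREM NE, part A: pure rows, Clifford theory, the structure theorem `STR`

THEOREM NE (page `H10_MP_baa4d7_al_helper37.md` in the team store). Q1 for EVERY finite extension `E`, every `d`, every `U`, all `p`, for the blocks of THEOREM ND.

NOTATION (`Defs.lean`). `G` ambient group, `N` a subgroup, `χ ∈ IrrOn N`, `GN p e m M N χ L Z` the characters `ψ` of `L` with `SB M N ψ χ` and a unit class with `Zg = Z`. For `N = ⊤` it is `GS p e m M χ L Z` (definitional), `ZN p e m t M ⊤ χ Z z x` contains `ZD p e m t M χ Z z x`. `C = N ⊓ cz Z`, `H = N ⊓ nz Z`, `st Z t ν θ`, `Zg`, `Tx`: from `ND/Spec`.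
`Nw N w = N ⊔ Subgroup.zpowers w`.

RULES FOR ROWS. File `Pool/Agent/<seat>/NE/XXX.lean` with

  import Pool.Agent.helper37.NE.SpecA
  set_option autoImplicit false
  namespace Pool.Agent.NE
  open Pool.Agent.helper58.DC Pool.Agent.DI Pool.Agent.GR Pool.Agent.OB Pool.Agent.DR Pool.Agent.FI Pool.Agent.FI3 Pool.Agent.FI4 Pool.Agent.FI4I Pool.Agent.LE Pool.Agent.L5 Pool.Agent.NAB Pool.Agent.ND
  theorem XXX (hYYY : YYY_stmt) ... : XXX_stmt := ...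
  end Pool.Agent.NE

auxiliary lemmas prefixed `XXX_`, no sorry, no double quotes in the file, no `convert`, no `congr!`. The rows named in the docstring are hypotheses; all rows of `helper37/ND/{Spec,SpecP,SpecC}`, of `helper37/NA/{Spec,Spec2}` (NEG NUD NUH NUB NUE NUF NUX NXU NQU NTG NTI NTK ..) and of the earlier specs (GR, DI, DR, OB, FI, FI3, FI4, FI4I, LE, L5: all proved) may be added as further hypotheses (no circles).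
-/

set_option autoImplicit false

namespace Pool.Agent.NE

open Pool.Agent.helper58.DC Pool.Agent.DI Pool.Agent.GR Pool.Agent.OB Pool.Agent.DR Pool.Agent.FI Pool.Agent.FI3 Pool.Agent.FI4 Pool.Agent.FI4I Pool.Agent.LE Pool.Agent.L5 Pool.Agent.NAB Pool.Agent.ND

/-! ## 1. Counting with rows -/

open Classical in
/-- The function `d` is `±` the row of the orbit of `x₀`. -/
def RO {X A : Type} (act : A → X → X) (r : X → X → Prop) (d : X → X → ℤ) (x₀ : X) : Prop :=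
  ∃ ε : ℤ, (ε = 1 ∨ ε = -1) ∧ ∀ x y, r x y → d x y = ε * ((if ∃ t, act t x₀ = x then (1 : ℤ) else 0) - (if ∃ t, act t x₀ = y then 1 else 0))

/-- **YKC** (medium; pure; COPY KCO, grep `theorem KCO`, row of `ND/SpecC`; from KCH). COUNTING, explicit form. The notation of the docstring of KCO: `θ i`, `A_i`, `s i`, `O_i`, `J`, `a`, `Y`. If `|Ψ| = Φ` then (KCO (4)) for `ψ ∉ im a` exactly one `Y_i ψ` is `± 1`, the others are `0`, `D ψ = ± T' i`, and for every `i` there are `s i` such `ψ`;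
for `ψ = a j`, `j = (i, [y])`: `D ψ = - ε i • T j`. For `r x x'`, `x` in the class `i`, `r (act t x) (θ i)`: `T' i x x' = [act t x' ≠ θ i] - [act t x ≠ θ i] = [x ∈ A θ_i] - [x' ∈ A θ_i]`, `T j x x' = [act t x' ∈ [y]] - [act t x ∈ [y]] = [x' ∈ A y] - [x ∈ A y]` (`x ∈ A y` and `r (act t x) (θ i)` imply `act t x ∈ A_i y`: `act t x = act u y`, `r (θ i) y`, so `u ∈ A_i`), both `0` if `x` is not in the class `i` (then no element of `A θ_i` or `A y` is in the class of `x`).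
So `RO act r (D ψ) (θ i)` for `ψ` of type `i`, `RO act r (D ψ) y` for `ψ = a (i, [y])`. UNIQUENESS: if `RO act r d x₀` and `RO act r d x₁` then `x₁ ∈ A x₀`: the class of `x₀` under `r` has `≥ b (b + 3) + 1 > 2 b` elements, at most `b` of them are in `A x₀` and at most `b` in `A x₁` (`Acn.st`), so there is `y` with `r x₀ y` in neither orbit; `± 1 = d x₀ y = ± [x₀ ∈ A x₁]`.
So `{ψ | RO (D ψ) x₀}` is the set of the `ψ` of type `i` if `x₀ ∈ A θ_i` (`s i` elements, and `|K| s i = |A_i| = |{t | act t (θ i) = θ i}|`, the stabiliser of `x₀` is conjugate to it) and has exactly one element `a (i, [y])` if `x₀ ∈ A y`, `y ∈ O_i` (and the stabiliser of `y` is `K`: `Acn.fix`, `Acn.triv`). Every `x₀` is of one of the two kinds. -/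
def YKC_stmt : Prop :=
  ∀ (X A : Type) [Finite X] [Group A] [Finite A] (K : Subgroup A) (act : A → X → X) (r : X → X → Prop) (b : ℕ), Acn K act r b →
    ∃ Φ : ℕ, ∀ (Ψ : Type) [Finite Ψ] (w : Ψ → ℤ) (D : Ψ → X → X → ℤ), Sys K act r w D →
      (∀ ψ, ∃ x y, D ψ x y ≠ 0) →
      Nat.card Ψ ≤ Φ ∧
      ((∀ ψ x y, |D ψ x y| ≤ 1) → (∀ ψ x y x' y', D ψ x y ≠ 0 → D ψ x' y' ≠ 0 → ∃ t, r (act t x) x') → Nat.card Ψ = Φ) ∧
      (Nat.card Ψ = Φ → (∀ ψ, ∃ x₀, RO act r (D ψ) x₀) ∧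
        ∀ x₀, Nat.card K * Nat.card {ψ // RO act r (D ψ) x₀} = Nat.card {t // act t x₀ = x₀})

/-! ## 2. Clifford theory for cyclic quotients, linear characters -/

/-- **YCL** (short to medium; COPY GCL, grep `theorem GCL`, row of `ND/Spec`; from B9 or B10 of DI, CFA or CCJ of DR, B2, B3). Clifford theory, `L = K ⊔ ⟨s⟩`, `s ∈ nz K`. Proof: in the type `L` the subgroup `K` is normal with cyclic quotient (`CycQ`), B9 (1) (transfer as in GCL): `φ` restricted to `K` is the sum of the different `L`-conjugates of some `ψ₀`: this gives (1), (3), (4)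
(the `L`-conjugates are the conjugates by the `s ^ k`: `cjF x ψ₀ = ψ₀` for `x ∈ K`; `s` has finite order, so `k : ℕ` is enough). (2): B9 (2): the number of the `φ` over `ψ` is not `0`. -/
def YCL_stmt : Prop :=
  ∀ (G : Type) [Group G] [Finite G] (K : Subgroup G) (s : G), s ∈ nz K →
    (∀ φ ∈ IrrOn (K ⊔ Subgroup.zpowers s), ∃ ψ ∈ IrrOn K, mt K φ ψ ≠ 0) ∧
    (∀ ψ ∈ IrrOn K, ∃ φ ∈ IrrOn (K ⊔ Subgroup.zpowers s), mt K φ ψ ≠ 0) ∧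
    (∀ φ ∈ IrrOn (K ⊔ Subgroup.zpowers s), ∀ ψ ∈ IrrOn K, mt K φ ψ = 0 ∨ mt K φ ψ = 1) ∧
    ∀ φ ∈ IrrOn (K ⊔ Subgroup.zpowers s), ∀ ψ ∈ IrrOn K, ∀ ψ' ∈ IrrOn K, mt K φ ψ ≠ 0 → (mt K φ ψ' ≠ 0 ↔ ∃ k : ℕ, ψ' = cjF (s ^ k) ψ)

/-- The linear characters of `N' = Nw N w` trivial on `N`. -/
def lc {G : Type} [Group G] (N N' : Subgroup G) : Set (G → ℂ) :=
  {l | (∀ x ∈ N', ∀ y ∈ N', l (x * y) = l x * l y) ∧ (∀ x ∈ N, l x = 1) ∧ ∀ x, x ∉ N' → l x = 0}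

/-- **YLN** (short to medium; from B5, B6 of DI, B0-type transfer). Linear characters. `w ∈ nz N`, `N' = Nw N w`. Proof: in the type `N'` the subgroup `N.subgroupOf N'` satisfies `CycQ`; B5: the `Λ` with `l`; the elements of `lc N N'` are the functions `x ↦ l a x` on `N'`, `0` outside (every element of `lc` is a homomorphism `N' → ℂˣ` trivial on `N`; it is enough to use a subset: to be sure that `lc` is the image of `Λ` count, or prove (2) directly: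
(2) if `x ∈ N'`, `x ∉ N` then some `l₀ ∈ lc` has `l₀ x ≠ 1` (B5: otherwise the sum over `Λ` is `|Λ| ≠ 0`), and multiplication by `l₀` is a permutation of the finite set `lc` (`l₀⁻¹` on `N'`), so `S = l₀ x * S` and `S = 0`.) Finite: the values are roots of unity or `0` (`l x ^ |G| = l (x ^ |G|) = l 1 = 1`). (4) B6 for the type `K`. -/
def YLN_stmt : Prop :=
  ∀ (G : Type) [Group G] [Finite G] (N : Subgroup G) (w : G), w ∈ nz N →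
    (lc N (Nw N w)).Finite ∧ (lc N (Nw N w)).ncard ≠ 0 ∧
    (∀ x ∈ Nw N w, x ∉ N → ∑ᶠ l ∈ lc N (Nw N w), l x = 0) ∧
    (∀ K ≤ Nw N w, ∀ φ ∈ IrrOn K, ∀ l ∈ lc N (Nw N w), (fun x => l x * φ x) ∈ IrrOn K) ∧
    (∀ l ∈ lc N (Nw N w), ∃ l' ∈ lc N (Nw N w), ∀ x ∈ Nw N w, l x * l' x = 1) ∧
    ∀ l ∈ lc N (Nw N w), ∀ a ∈ Nw N w, ∀ x, l (a * x * a⁻¹) = l x

/-- **YGW** (short to medium; pure). The group `N' = Nw N w` for `WW p N Z w`. Proof: `N` is normal in `N'`, every element of `N'` is `n * w ^ k` (`Subgroup.mem_sup`-type lemma with `w ∈ nz N`). (2) `p`-elements: the image of `y = n w ^ k` in `N' / N` is a power of `w N`, whose order is prime to `p`, and is a `p`-element, so trivial (concretely: `y ^ p ^ j = 1`; `w ^ (k p ^ j) ∈ N`, `w ^ (orderOf w) = 1`, so `w ^ k ∈ N`).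
(3) `|N' : N|` divides `orderOf w`. (4) Dedekind: `x = n w ^ k ∈ nz V` and `w ∈ nz V` give `n ∈ N ⊓ nz V`. (5) (4) and `w ^ k ∈ N` implies `w ^ k ∈ N ⊓ nz V`. (6) `w ∈ nz (N ⊓ nz V)`, `nz (N ⊓ cz V)`, `nz (cz V)`, `nz (nz V)`. (7) `C' / (C' ⊓ N)` embeds in the cyclic group `N' / N`: let `k₀` be the least `k > 0` such that some `n w ^ k ∈ C'`, `s` this element; by division every element of `C'` is `c s ^ j`, `c ∈ C' ⊓ N = N ⊓ cz Z`. -/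
def YGW_stmt : Prop :=
  ∀ (p : ℕ), p.Prime → ∀ (G : Type) [Group G] [Finite G] (N Z : Subgroup G) (w : G), WW p N Z w →
    (N ≤ Nw N w ∧ w ∈ Nw N w ∧ Nw N w ≤ nz N) ∧
    (∀ y ∈ Nw N w, PEl p y → y ∈ N) ∧
    (∃ k : ℕ, ¬ p ∣ k ∧ Nat.card (Nw N w) = Nat.card N * k) ∧
    (∀ V : Subgroup G, w ∈ nz V → Nw N w ⊓ nz V = Nw (N ⊓ nz V) w) ∧
    (∀ V : Subgroup G, w ∈ nz V → Nw (N ⊓ nz V) w ⊓ N = N ⊓ nz V) ∧
    (∀ V : Subgroup G, w ∈ nz V → w ∈ nz (N ⊓ nz V) ∧ w ∈ nz (N ⊓ cz V) ∧ w ∈ nz (cz V)) ∧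
    ∃ s ∈ Nw N w ⊓ cz Z, s ∈ nz (N ⊓ cz Z) ∧ Nw N w ⊓ cz Z = (N ⊓ cz Z) ⊔ Subgroup.zpowers s

/-- **YGR** (short to medium; from YLN, YCL, YGW, B2, B3). The number `rN'` does not depend on `θ'` over `θ₀`. `C = N ⊓ cz Z ≤ C' = N' ⊓ cz Z`, `C' ⊓ N = C`. Proof: (a) there is `l ∈ lc N N'` with `θ₂' = l * θ₁'`: otherwise by orthogonality (B2 for `C'`; `l θ₁' ∈ IrrOn C'`: YLN) `∑_{x ∈ C'} l x * θ₁' x * θ₂' x⁻¹ = 0` for all `l`; sum over `l` (YLN (3), `l x = 1` for `x ∈ N`):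
`ncard * ∑_{x ∈ C} θ₁' x * θ₂' x⁻¹ = 0`; but this sum is `|C| * ∑_{ψ ∈ IrrOn C} mt C θ₁' ψ * mt C θ₂' ψ` (expansion of the restrictions, B3 / EXP and B2) with nonnegative terms (`0` or `1` by YCL (3) for `s` of YGW (7)), the term of `θ₀` is `1`. (b) `θ'' ↦ l * θ''` is a bijection from the set for `θ₁'` onto the set for `θ₂'`: `mt C (l θ'') θ₀ = mt C θ'' θ₀` (`l = 1` on `C ≤ N`),
`cjF a (l θ₁') = l * cjF a θ₁'` for `a ∈ N'` (YLN (6); both `0` outside `N'`); inverse: `l'`. -/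
def YGR_stmt : Prop :=
  ∀ (p : ℕ), p.Prime → ∀ (G : Type) [Group G] [Finite G] (N Z : Subgroup G) (w : G), WW p N Z w → ∀ θ₀ ∈ IrrOn (N ⊓ cz Z),
    ∀ θ₁ ∈ IrrOn (Nw N w ⊓ cz Z), ∀ θ₂ ∈ IrrOn (Nw N w ⊓ cz Z), mt (N ⊓ cz Z) θ₁ θ₀ ≠ 0 → mt (N ⊓ cz Z) θ₂ θ₀ ≠ 0 →
    rN' N (Nw N w) Z θ₀ θ₁ = rN' N (Nw N w) Z θ₀ θ₂

/-- **YRI** (short to medium; from YCL, YGW, ZLM of ND, B2, B3 or EXP). Induction from `C = N ⊓ cz Z` to `C' = N' ⊓ cz Z` and `st`. Proof: let `I y = |C|⁻¹ * ∑_{u ∈ C'} θ (u⁻¹ * y * u)` (`θ` vanishes outside `C`): a class function of `C'` which vanishes outside `C'`, and for `θ' ∈ IrrOn C'` `∑_{y ∈ C'} I y * θ' y⁻¹ / |C'| = |C|⁻¹ ∑_{y ∈ C} θ y * θ' y⁻¹ =` the complex conjugate of (real number) `mt C θ' θ`, `0` or `1` (YCL (3));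
so `I = ∑ᶠ θ' ∈ T, θ'`, `T = {θ' ∈ IrrOn C' | mt C θ' θ ≠ 0}` (EXP, B2). Then `∑_{θ' ∈ T} mt C' φ (st Z t ν θ') = |C'|⁻¹ ∑_{x ∈ C'} φ x * lam ν x⁻¹ * I x⁻¹ = |C'|⁻¹ |C|⁻¹ ∑_u ∑_x φ x * lam ν x⁻¹ * θ (u⁻¹ x⁻¹ u)`, substitute `x = u y u⁻¹`: `φ (u y u⁻¹) = φ y` (hypothesis), `lam ν (u y⁻¹ u⁻¹) = lam ν y⁻¹` (ZLM (3): `u ∈ cz Z`): `= |C|⁻¹ ∑_{y ∈ C} φ y * lam ν y⁻¹ * θ y⁻¹`. -/
def YRI_stmt : Prop :=
  ∀ (p e t : ℕ), p.Prime → ∀ (G : Type) [Group G] [Finite G], Tx p e t G → ∀ (N Z : Subgroup G) (w : G), WW p N Z w →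
    ∀ φ : G → ℂ, (∀ u ∈ Nw N w ⊓ cz Z, ∀ y ∈ Nw N w ⊓ cz Z, φ (u * y * u⁻¹) = φ y) → ∀ θ ∈ IrrOn (N ⊓ cz Z), ∀ ν : Z →* ℂˣ,
    mt (N ⊓ cz Z) φ (st Z t ν θ) = ∑ᶠ θ' ∈ {θ' : G → ℂ | θ' ∈ IrrOn (Nw N w ⊓ cz Z) ∧ mt (N ⊓ cz Z) θ' θ ≠ 0}, mt (Nw N w ⊓ cz Z) φ (st Z t ν θ')

/-- **YPT** (short; pure). Two partitions. `Fa i`, `Fb i` (`i ∈ I`) pairwise equal or disjoint finite families with the same pattern, `|Fa i| = |Fb i|`, the predicate is constant on `Fa i ∪ Fb i`. Proof: choose representatives of the classes of `i ~ j ↔ Fa i = Fa j` (`Quotient` of `I`), both sets are disjoint unions over the classes (`Set.ncard` of a finite disjoint union; or build a bijection class by class and use `Set.ncard_congr`). -/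
def YPT_stmt : Prop :=
  ∀ (I α β : Type) (S : Set α) (T : Set β) (Fa : I → Set α) (Fb : I → Set β) (R : I → I → Prop), Equivalence R → S.Finite → T.Finite →
    (∀ i, Fa i ⊆ S ∧ Fb i ⊆ T) → (∀ a ∈ S, ∃ i, a ∈ Fa i) → (∀ b ∈ T, ∃ i, b ∈ Fb i) →
    (∀ i j a, a ∈ Fa i → a ∈ Fa j → R i j) → (∀ i j b, b ∈ Fb i → b ∈ Fb j → R i j) →
    (∀ i j, R i j → Fa i = Fa j ∧ Fb i = Fb j) → (∀ i, (Fa i).ncard = (Fb i).ncard) →
    ∀ (P : α → Prop) (Q : β → Prop), (∀ i, ∀ a ∈ Fa i, ∀ b ∈ Fb i, (P a ↔ Q b)) →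
    {a | a ∈ S ∧ P a}.ncard = {b | b ∈ T ∧ Q b}.ncard

/-- **YTG** (short to medium; pure; COPY NTG, grep `theorem NTG`, with `G₀` in place of `⊤`). Toggle for chains of subgroups of `G₀`. Proof: for a chain `C` let `P` be the largest term with `¬ E ≤ P` (exists: `R`). Toggle `P ⊔ E` (a `p`-group since `E ≤ nrm C ≤ nz P`, contained in `G₀`). The terms which contain `E` contain `P ⊔ E`; `P ⊔ E ≠ R`. `E` normalises `P ⊔ E`,
and an element of `nz E ⊓ nz P` normalises `P ⊔ E`, so `E ≤ nrm C` and `nz E ⊓ nrm C` do not change. -/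
def YTG_stmt : Prop :=
  ∀ (Γ : Type) [Group Γ] [Finite Γ] (p : ℕ) [Fact p.Prime] (G₀ R E : Subgroup Γ) (F : Subgroup Γ → ℂ), IsPGroup p E → E ≤ G₀ → ¬ E ≤ R →
    ∑ᶠ C ∈ {C : Finset (Subgroup Γ) | PCh p G₀ R C ∧ E ≤ nrm C}, (-1 : ℂ) ^ (C.card + 1) * F (nz E ⊓ nrm C) = 0

/-! ## 3. The structure theorem -/

/-- **YGA** (short; from ZGP, GBC (ND)). The hypothesis `ZN` for `N = ⊤`. Proof: direct; `⊤ ⊓ cz Z = cz Z`; GBC (2) for the last item. -/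
def YGA_stmt : Prop :=
  ∀ (p e m t : ℕ) (M : Ideal (integralClosure ℤ ℂ)), Setup p M → ∀ (G : Type) [Group G] [Finite G] (χ : G → ℂ) (Z : Subgroup G) (z x : G),
    ZN p e m t M (⊤ : Subgroup G) χ Z z x → ZD p e m t M χ Z z x ∧
    (∀ L : Subgroup G, GN p e m M (⊤ : Subgroup G) χ L Z = GS p e m M χ L Z) ∧
    (⊤ ⊓ cz Z : Subgroup G) = cz Z ∧ (⊤ ⊓ nz Z : Subgroup G) = nz Z ∧ (⊤ ⊓ nz (Eg p e z) : Subgroup G) = nz (Eg p e z) ∧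
    GN p e m M (⊤ : Subgroup G) χ (⊤ : Subgroup G) Z = Bl M (⊤ : Subgroup G) χ

/-- **YUE** (short to medium; from GBC, NXU, NUF, NQU, NUB, ZGP, NEG, B2; it is the first part of the proof of GKD, grep `theorem GKD`). A COMMON unit class: for a block of the type `G` with a unit class `(z₁, x₁)`, `Zg z₁ = Z`, there is a unit class `(z, x)` of `⊤` with `Zg z = Z`, such that for `L = ⊤` and `L = nz E`, `E = Eg z₁`, all members of `GS L` have the unit class `(z, x)` in `L`, and `C_G(z x) ≤ cz Z`.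
Proof: NXU (`L = ⊤`): `η₀ ∈ BE p e m M ⊤ (nz E) E χ` with a unit class `(z', x')`, `Eg z' = E`. NUF (`⊤ ⊓ nz E = nz E`): `Ucl ⊤ χ z' x'`; ZNU (1): `Zg z' = cjS k Z`; conjugate: `z = k⁻¹ z' k`, `x = k⁻¹ x' k`, `Zg z = Z`, so `Eg z = E` (ZGP (4)), `k⁻¹` maps `E = Eg z'` to `Eg z = E`, so `k ∈ nz E`, and `Ucl (nz E) η₀ z x` (NUB (3)), `Ucl ⊤ χ z x` (NUB (3)).
All members of `GS ⊤ = Bl M ⊤ χ` (GBC (2)): NUB (1). `GS (nz E) ⊆ BE p e m M ⊤ (nz E) E χ` (ZGP (4): `Zg z'' = Z = Zg z` implies `Eg z'' = E`) `= Bl M (nz E) η₀` (NQU), NUB (1). Last item: ZGP (6). Conversely `BE ⊆ GS (nz E)` as all members have the unit class `(z, x)`. -/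
def YUE_stmt : Prop :=
  ∀ (p e m t : ℕ) (M : Ideal (integralClosure ℤ ℂ)), Setup p M → ∀ (G : Type) [Group G] [Finite G] (χ : G → ℂ) (Z : Subgroup G) (z₁ x₁ : G),
    ZD p e m t M χ Z z₁ x₁ → ∃ z x : G, ZD p e m t M χ Z z x ∧ Eg p e z = Eg p e z₁ ∧
      (∀ ψ ∈ GS p e m M χ (⊤ : Subgroup G) Z, Ucl p e m M (⊤ : Subgroup G) ψ z x) ∧
      (∀ ψ ∈ GS p e m M χ (nz (Eg p e z₁)) Z, Ucl p e m M (nz (Eg p e z₁)) ψ z x) ∧
      GS p e m M χ (⊤ : Subgroup G) Z = Bl M (⊤ : Subgroup G) χ ∧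
      GS p e m M χ (nz (Eg p e z₁)) Z = BE p e m M (⊤ : Subgroup G) (nz (Eg p e z₁)) (Eg p e z₁) χ ∧
      Subgroup.centralizer ({z * x} : Set G) ≤ cz Z ∧ cz Z ≤ nz Z ∧ nz Z ≤ nz (Eg p e z₁)

open Classical in
/-- **YGK** (medium; from YKC, YUE, GAC, GSY, GNV, GQQ, GKE, NMP, GBC, GST, GOB, ZGP, B2; MODEL GKD, grep `theorem GKD`). ROWS AND COUNTS for the type `G`. Proof as GKD with YKC in place of KCO: `C = cz Z ≤ nz Z ≤ nz E`; `(z, x)` of YUE; for `L ∈ {⊤, nz E}` `A₀ = nz Z = nz Z ⊓ L`; GAC: `act`, `Acn`; YKC: `Φ`; GSY for `L = ⊤` and `L = nz E`: `D`, `Sys`; not `0` by GNV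
(the unit class `(z, x)`). YKC (2) for `nz E` with GQQ: `|GS (nz E)| = Φ`. GKE (MNc from NMP for all groups; `2 m + bz p + m / 2 ≤ e`; `χ ∈ Irr G`: TPR): `|GS ⊤| = |GS (nz E)| = Φ`. So YKC (3) for both. Translation: `D ψ θ θ' = mt (cz Z) ψ θ - mt (cz Z) ψ θ'` for `orb θ θ'`, `θ' = st Z t ν θ`; `∃ t, act t θ₀ = θ` iff `∃ h ∈ nz Z, cjF h θ₀ = θ`, i.e. `iH ⊤ Z θ₀ θ = 1`
(`⊤ ⊓ nz Z = nz Z`); `|K| = |(cz Z).subgroupOf (nz Z)| = |cz Z|`; `{t : nz Z // act t θ₀ = θ₀}` has as many elements as `{h : G // h ∈ nz Z ∧ cjF h θ₀ = θ₀}`. -/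
def YGK_stmt : Prop :=
  ∀ (p e m t : ℕ) (M : Ideal (integralClosure ℤ ℂ)), Setup p M → ∀ (G : Type) [Group G] [Finite G] (χ : G → ℂ) (Z : Subgroup G) (z x : G),
    ZD p e m t M χ Z z x → 2 * m + bz p + m / 2 ≤ e → ∀ L : Subgroup G, (L = ⊤ ∨ L = nz (Eg p e z)) →
    (∀ ψ ∈ GS p e m M χ L Z, ∃ θ₀ ∈ GS p e m M χ (cz Z) Z, ∃ ε : ℂ, (ε = 1 ∨ ε = -1) ∧ ∀ θ ∈ GS p e m M χ (cz Z) Z, ∀ ν : Z →* ℂˣ,
      mt (cz Z) ψ θ - mt (cz Z) ψ (st Z t ν θ) = ε * (iH ⊤ Z θ₀ θ - iH ⊤ Z θ₀ (st Z t ν θ))) ∧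
    ∀ θ₀ ∈ GS p e m M χ (cz Z) Z, Nat.card (cz Z : Subgroup G) *
      {ψ : G → ℂ | ψ ∈ GS p e m M χ L Z ∧ ∃ ε : ℂ, (ε = 1 ∨ ε = -1) ∧ ∀ θ ∈ GS p e m M χ (cz Z) Z, ∀ ν : Z →* ℂˣ,
        mt (cz Z) ψ θ - mt (cz Z) ψ (st Z t ν θ) = ε * (iH ⊤ Z θ₀ θ - iH ⊤ Z θ₀ (st Z t ν θ))}.ncard = Nat.card {h : G // h ∈ nz Z ∧ cjF h θ₀ = θ₀}

open Classical in
/-- **YGD** (short to medium; from YUE, GVF, GDF, ZGP). THE DEFECTS. Proof: `(z, x)` of YUE, `g = z x`, `C_G(g) ≤ cz Z ≤ L`. GVF for `ψ` (`L = ⊤`) and `ψ₁` (`L = nz E`): `ψ g = - |Hom|⁻¹ ∑_θ ∑_ν θ g * lam ν g * (mt ψ θ - mt ψ (st ν θ))`; the hypotheses on the rows give `ψ g = ε c`, `ψ₁ g = ε₁ c` with the same `c`, so `ψ₁ g = ± ψ g`. GDF for `ψ`, `ψ₁` (the same unit class `(z, x)`, the same `|C_G(z x)|`; `UM M a ↔ UM M (-a)`: `IntAt`, `InM` of the negative). -/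
def YGD_stmt : Prop :=
  ∀ (p e m t : ℕ) (M : Ideal (integralClosure ℤ ℂ)), Setup p M → ∀ (G : Type) [Group G] [Finite G] (χ : G → ℂ) (Z : Subgroup G) (z x : G),
    ZD p e m t M χ Z z x → ∀ ψ ∈ GS p e m M χ (⊤ : Subgroup G) Z, ∀ ψ₁ ∈ GS p e m M χ (nz (Eg p e z)) Z, ∀ (f : (G → ℂ) → ℂ) (ε ε₁ : ℂ),
    (ε = 1 ∨ ε = -1) → (ε₁ = 1 ∨ ε₁ = -1) →
    (∀ θ ∈ GS p e m M χ (cz Z) Z, ∀ ν : Z →* ℂˣ, mt (cz Z) ψ θ - mt (cz Z) ψ (st Z t ν θ) = ε * (f θ - f (st Z t ν θ))) →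
    (∀ θ ∈ GS p e m M χ (cz Z) Z, ∀ ν : Z →* ℂˣ, mt (cz Z) ψ₁ θ - mt (cz Z) ψ₁ (st Z t ν θ) = ε₁ * (f θ - f (st Z t ν θ))) →
    ∀ d : ℤ, (Defect p (⊤ : Subgroup G) ψ d ↔ Defect p (nz (Eg p e z)) ψ₁ d)

/-- **YST** (short to medium; from YGA, YGK, YGD, GOU, GST, GOS, GS4, ZGP). The structure theorem for the type `G`, `N = ⊤`. Proof: YGA to translate; `ex`, `ct`: YGK; `df`: YGD with `f = iH ⊤ Z θ₀`; `ou`: GOU (`orb θ (st ν θ)`); `sm`: GST; `sz`: GOS; `fx`: GS4. -/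
def YST_stmt : Prop :=
  ∀ (p e m t : ℕ) (M : Ideal (integralClosure ℤ ℂ)), Setup p M → ∀ (G : Type) [Group G] [Finite G] (χ : G → ℂ) (Z : Subgroup G) (z x : G),
    ZN p e m t M (⊤ : Subgroup G) χ Z z x → STR p e m t M (⊤ : Subgroup G) χ Z z

/-- **YTR** (medium, many short items; from TR1, TR2, TR3, TR4, NTK, NEG, B2; MODEL TDI, grep `theorem TDI`). THE DICTIONARY between the type `N` and the functions on `G` (`rN N ψ`; all functions `ψ` here vanish outside `N`). `Z' = Z.subgroupOf N`. (1) `Tx`: orders of elements. (2) `Zg`: `Subgroup.map`, NEG (7)-type. (3) the isomorphism `ι : Z' ≃* Z` (`Subgroup.subgroupOfEquivOfLe`): `lam Z' t (ν ∘ ι) y = lam Z t ν y` for `y : N` (`(y ^ t : G) ∈ Z` iff `y ^ t ∈ Z'`),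
so `st Z' t (ν ∘ ι) (rN N θ) = rN N (st Z t ν θ)`, and every `ν' : Z' →* ℂˣ` is `ν ∘ ι`. (4) `cz Z' = (N ⊓ cz Z).subgroupOf N`, the same for `nz` (TR3, `Subgroup.inf_subgroupOf_left`). (5) `GN` for `L ≤ N`: TR1, TR2 (2) (for `H := N`, `N.subgroupOf N = ⊤`), NTK, (2). (6) `mt`: the sum over `K.subgroupOf N` is the sum over `K`. (7) `cjF`: TR2 (4). (8) `Defect`: TR4. (9) TR1 (3). -/
def YTR_stmt : Prop :=
  ∀ (p e m t : ℕ) (M : Ideal (integralClosure ℤ ℂ)), Setup p M → ∀ (G : Type) [Group G] [Finite G] (N Z : Subgroup G) (hZN : Z ≤ N),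
    (Tx p e t G → Tx p e t N) ∧
    (∀ z : N, Zg p e m z = (Zg p e m (z : G)).subgroupOf N) ∧
    (∀ (ν : Z →* ℂˣ) (θ : G → ℂ), st (Z.subgroupOf N) t (ν.comp (Subgroup.subgroupOfEquivOfLe hZN).toMonoidHom) (rN N θ) = rN N (st Z t ν θ)) ∧
    (cz (Z.subgroupOf N) = (N ⊓ cz Z).subgroupOf N ∧ nz (Z.subgroupOf N) = (N ⊓ nz Z).subgroupOf N) ∧
    (∀ χ : G → ℂ, (∀ y, y ∉ N → χ y = 0) → ∀ L ≤ N, ∀ ψ : G → ℂ, (∀ y, y ∉ N → ψ y = 0) →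
      (ψ ∈ GN p e m M N χ L Z ↔ rN N ψ ∈ GN p e m M (⊤ : Subgroup N) (rN N χ) (L.subgroupOf N) (Z.subgroupOf N))) ∧
    (∀ L ≤ N, ∀ φ ψ : G → ℂ, mt (L.subgroupOf N) (rN N φ) (rN N ψ) = mt L φ ψ) ∧
    (∀ (n : N) (ψ : G → ℂ), cjF n (rN N ψ) = rN N (cjF (n : G) ψ)) ∧
    (∀ L ≤ N, ∀ (ψ : G → ℂ) (d : ℤ), (Defect p (L.subgroupOf N) (rN N ψ) d ↔ Defect p L ψ d)) ∧
    (∀ L ≤ N, ∀ ψ' ∈ IrrOn (L.subgroupOf N), ∃ ψ ∈ IrrOn L, rN N ψ = ψ')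

/-- **YSN** (medium; from YST, YTR, TR1, TR2, NTK, NEG, ZGP). The structure theorem for the subgroup `N`. Proof: the type `N`, `χ' = rN N χ`, `Z' = Z.subgroupOf N` (`Z ≤ N`: ZGP (2)), `z' = ⟨z, _⟩`, `x' = ⟨x, _⟩`: `ZN p e m t M ⊤ χ' Z' z' x'` (YTR (1), (2), TR1, NTK with `N.subgroupOf N = ⊤`). YST for the type `N`. Translate every field of `STR` by YTR:
`L ↦ L.subgroupOf N` (`L = N ↦ ⊤`, `L = N ⊓ nz E ↦ ⊤ ⊓ nz (Eg z')` : NEG (7), TR3), `⊤ ⊓ cz Z' = (N ⊓ cz Z).subgroupOf N`; `ψ ↦ rN N ψ` is a bijection from the functions on `G` which vanish outside `N` onto the functions on the type `N` (`IrrOn L` functions vanish outside `L ≤ N`, `st ν θ` and `cjF n θ` (`n ∈ N`) vanish outside `N` if `θ` does). `iH ⊤ Z' (rN θ₀) (rN θ) = iH N Z θ₀ θ` for functions which vanish outside `N`.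
`orb` and the cardinalities: the map `rN N` is injective on these functions. -/
def YSN_stmt : Prop :=
  ∀ (p e m t : ℕ) (M : Ideal (integralClosure ℤ ℂ)), Setup p M → ∀ (G : Type) [Group G] [Finite G] (N : Subgroup G) (χ : G → ℂ) (Z : Subgroup G) (z x : G),
    ZN p e m t M N χ Z z x → STR p e m t M N χ Z z

end Pool.Agent.NE
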