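import Mathlib
import Pool.Agent.helper37.NE.SpecA

/-!
# MP_baa4d7_al, THEOREM NE, part B: extension by a `p`-regular element `w`; the stabilisers of the characters

RULES FOR ROWS as in `SpecA.lean` (import `Pool.Agent.helper37.NE.SpecB`, namespace `Pool.Agent.NE`, the same `open` line, file `Pool/Agent/<seat>/NE/XXX.lean`).

NOTATION. `N' = Nw N w`, `C = N ⊓ cz Z`, `C' = N' ⊓ cz Z`, `H = N ⊓ nz Z`, `H' = N' ⊓ nz Z`, `E = Eg p e z`, `L ∈ {N, N ⊓ nz E}` (`L2 p e N z L`), `L' = Nw L w`. `θ' ∈ IrrOn C'` is over `θ ∈ IrrOn C`: `mt C θ' θ ≠ 0`.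
-/

set_option autoImplicit false

namespace Pool.Agent.NE

open Pool.Agent.helper58.DC Pool.Agent.DI Pool.Agent.GR Pool.Agent.OB Pool.Agent.DR Pool.Agent.FI Pool.Agent.FI3 Pool.Agent.FI4 Pool.Agent.FI4I Pool.Agent.LE Pool.Agent.L5 Pool.Agent.NAB Pool.Agent.ND

/-! ## 1. Blocks and normal subgroups of index prime to `p` -/

/-- **YIX** (short; pure). Proof: let `P` be a Sylow `p`-subgroup of (the type) `K'`; its elements are `p`-elements, so `P ≤ K` and `|P|` divides `|K|`, so `|K' : K|` divides `|K'| / |P|`, which is prime to `p`. -/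
def YIX_stmt : Prop :=
  ∀ (p : ℕ), p.Prime → ∀ (G : Type) [Group G] [Finite G] (K K' : Subgroup G), K ≤ K' → (∀ y ∈ K', PEl p y → y ∈ K) →
    ∃ k : ℕ, ¬ p ∣ k ∧ Nat.card K' = Nat.card K * k

/-- **YUL** (medium; from CFA, CCJ, CJG, SBI, CLS, SYL, B2, C3). A unit class goes up from a normal subgroup `K` of index prime to `p` of `K'`, if the block is `K'`-stable. Proof: `g = z x ∈ K`. CFA (1), CCJ: `φ'` restricted to `K` is `c` times the sum of the different `K'`-conjugates `φ_j` of `φ` (`OverE K K' φ' φ c`; as `mt K φ' φ ≠ 0`), so `φ' 1 = c * r * φ 1` and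
for a function `f` which vanishes outside `K` and is `K'`-invariant `cc φ' f = r⁻¹ ∑_j cc φ_j f = cc φ f`. `f = cls K' g` is such a function, and it is the sum of the `cls K y` over the `K`-classes of the elements `y = u g u⁻¹`, `u ∈ K'`; `cc φ (cls K (u g u⁻¹)) = cc (cjF u⁻¹ φ) (cls K g) ≡ cc φ (cls K g)` modulo `M` (CJG, hypothesis). Their number is `n = |K' : K Cz K' g|`, a divisor of `k`,
so `cc φ' (cls K' g) ≡ n * cc φ (cls K g)` is not `InM` (`n` is prime to `p`; `cc φ (cls K g)` is integral). `cd`: `Cz K' g ⊓ K = Cz K g`, its index in `Cz K' g` is `|K Cz K' g : K|`, a divisor of `k`, so `pp p (Cz K' g) = pp p (Cz K g)`. -/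
def YUL_stmt : Prop :=
  ∀ (p e m : ℕ) (M : Ideal (integralClosure ℤ ℂ)), Setup p M → ∀ (G : Type) [Group G] [Finite G] (K K' : Subgroup G), K ≤ K' → K' ≤ nz K →
    (∃ k : ℕ, ¬ p ∣ k ∧ Nat.card K' = Nat.card K * k) → ∀ φ' ∈ IrrOn K', ∀ φ ∈ IrrOn K, mt K φ' φ ≠ 0 →
    (∀ g ∈ K', SB M K (cjF g φ) φ) → ∀ z x : G, Ucl p e m M K φ z x → Ucl p e m M K' φ' z x

/-- **YCV** (medium; from CFA, CCJ, EIN, IDM, SBI, CJG, B2; compare NOB, grep `theorem NOB`). COVERING. `C = C' ⊓ N`. Proof: `T = {φ ∈ IrrOn N | ∃ g ∈ N', SB M N φ (cjF g χ)}`: a union of blocks of `N` (`BC M N T`), stable under `N'` (as in NOB). `f = eS N T` has values `IntAt` (EIN), is invariant under `N'`, vanishes outside `N`: `CF N' f`. (a) `cc χ f = 1` (IDM: `χ ∈ T`), SBI for `SB M N θ χ`: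
`cc θ f ≡ 1`. (b) `cc θ' f = cc θ f`: `θ' * f` vanishes outside `C' ⊓ N = C`, `θ'` restricted to `C` is `c` times the sum of the different `C'`-conjugates of `θ` (CFA, CCJ), and `f` is `C'`-invariant (as in YUL). (c) SBI for `SB M N' θ' χ'`: `cc χ' f ≡ cc θ' f ≡ 1`, so `cc χ' f ≠ 0`. (d) `χ'` restricted to `N` is `c` times the sum of the different `N'`-conjugates of some `χ₀ ∈ IrrOn N`
(CFA), so `cc χ' f = cc χ₀ f`, and `χ₀ ∈ T` (IDM: otherwise `0`): `SB M N χ₀ (cjF g χ)`; `χ₁ = cjF g⁻¹ χ₀ ∈ IrrOn N`, `SB M N χ₁ χ` (CJG), `mt N χ' χ₁ = mt N χ' χ₀ ≠ 0`. -/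
def YCV_stmt : Prop :=
  ∀ (p : ℕ) (M : Ideal (integralClosure ℤ ℂ)), Setup p M → ∀ (G : Type) [Group G] [Finite G] (N N' C' : Subgroup G), N ≤ N' → N' ≤ nz N → C' ≤ N' →
    ∀ θ' ∈ IrrOn C', ∀ θ ∈ IrrOn (C' ⊓ N), mt (C' ⊓ N) θ' θ ≠ 0 → ∀ χ ∈ IrrOn N, ∀ χ' ∈ IrrOn N', SB M N θ χ → SB M N' θ' χ' →
    ∃ χ₁ ∈ IrrOn N, mt N χ' χ₁ ≠ 0 ∧ SB M N χ₁ χ

/-- **YDF** (medium; from YLN, YCL, YIX, DUN, DCM, SBI, EIN or IDM, CLS, B2, B9). THE DEFECT GROUPS, index prime to `p`: `C' = C ⊔ ⟨s⟩`. A local subgroup `R` of the block of `θ` is contained in a defect group of the block of `θ'` over `θ`. Proof: `e' = eS C' (Bl M C' θ')`, `f x = e' x` for `x ∈ C`, `0` outside: an invariant function of `C`. CLAIM: `cc θ f` is a unit (not `InM`): `e' x = |C'|⁻¹ ∑_{ψ ∈ Bl M C' θ'} ψ 1 * ψ x⁻¹`, so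
`cc θ f = (|C| / |C'|) * ∑_{ψ ∈ Bl M C' θ'} (ψ 1 / θ 1) * mt C ψ θ = (|C| r / |C'|) * n'`, `n'` the number of the `ψ ∈ Bl M C' θ'` over `θ` (`mt = 0, 1`, `ψ 1 = r θ 1`, `r` the number of conjugates of `θ`: YCL). `|C'| = |C| k` (YIX). The `ψ ∈ IrrOn C'` over `θ` are the `l * θ'`, `l ∈ lc C C'` (as in YGR (a)). `lc` is a group of order `k`
(`∑_x ∑_l l x` in two ways: YLN (3) and `∑_x l x = 0` for `l ≠ 1`), `A = {l ∈ lc | l * θ' ∈ Bl M C' θ'}` is a subgroup (`l * ` maps blocks to blocks: `cc (l * ψ) z = cc ψ (l * z)`), and `n' = |A| / |{l | l * θ' = θ'}|` divides `k`: it is prime to `p`, and so is `r` (a divisor of `k`). So `cc θ f = r n' / k` is not `InM`. SBI for `SB M C η₀ θ`: `cc η₀ f` is not `InM` (`f` has `IntAt` values: EIN). DCM (1) for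
`C ⊓ cz R`, `η₀`, `f`: there is `v` with `¬ InM M (f v)` (use the item of DCM for `InM` of the coefficients; otherwise: `f` is a combination of class functions of `C ⊓ cz R`, if all values on `C ⊓ cz R` are `InM` then `cc η₀ f` is `InM`), `v ∈ C ⊓ cz R`. So `¬ InM M (e' v)`, `v` commutes with `R`: DUN (3) for `C'`, `θ'`, `(D, y)`, `a = v`: `l ∈ C'` with `l⁻¹ r l ∈ D` for all `r ∈ R`. -/
def YDF_stmt : Prop :=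
  ∀ (p : ℕ) (M : Ideal (integralClosure ℤ ℂ)), Setup p M → ∀ (G : Type) [Group G] [Finite G] (C : Subgroup G) (s : G), s ∈ nz C →
    (∀ y ∈ C ⊔ Subgroup.zpowers s, PEl p y → y ∈ C) → ∀ θ ∈ IrrOn C, ∀ θ' ∈ IrrOn (C ⊔ Subgroup.zpowers s), mt C θ' θ ≠ 0 →
    ∀ R ≤ C, IsPGroup p R → ∀ η₀ ∈ IrrOn (C ⊓ cz R), SB M C η₀ θ → ∀ (D : Subgroup G) (y : G), DefL p M (C ⊔ Subgroup.zpowers s) θ' D y →
    ∃ l ∈ C ⊔ Subgroup.zpowers s, ∀ r ∈ R, l⁻¹ * r * l ∈ D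

/-! ## 2. The blocks of `N'` -/

/-- **YBE** (short to medium; from NXU, NUF, NQU, NUB, ZNU, ZGP, NEG, CLS; relative form of YUE). Proof: `GN N = Bl`: NUB (1) (the unit class `(z, x)`). `E = Eg p e z`, `N₁ = N ⊓ nz E`. NXU (`L = N`): `η₀ ∈ BE p e m M N N₁ E χ` with a unit class `(z', x')`, `Eg z' = E`; NUF: `Ucl N χ z' x'`; ZNU (1): `Zg z' = cjS k Z`, `k ∈ N`; `z'' = k⁻¹ z' k`, `x'' = k⁻¹ x' k`: `Zg z'' = Z`, so `Eg z'' = E` (ZGP (4)), so `k ∈ nz E`,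
`Ucl N₁ η₀ z'' x''` (NUB (3)). `BE = Bl M N₁ η₀` (NQU), all members have the unit class `(z'', x'')`, so `BE ⊆ GN N₁`; `GN N₁ ⊆ BE`: ZGP (4). -/
def YBE_stmt : Prop :=
  ∀ (p e m t : ℕ) (M : Ideal (integralClosure ℤ ℂ)), Setup p M → ∀ (G : Type) [Group G] [Finite G] (N : Subgroup G) (χ : G → ℂ) (Z : Subgroup G) (z x : G),
    ZN p e m t M N χ Z z x →
    GN p e m M N χ N Z = Bl M N χ ∧
    GN p e m M N χ (N ⊓ nz (Eg p e z)) Z = BE p e m M N (N ⊓ nz (Eg p e z)) (Eg p e z) χ ∧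
    (∀ η ∈ GN p e m M N χ (N ⊓ nz (Eg p e z)) Z, ∀ η' ∈ GN p e m M N χ (N ⊓ nz (Eg p e z)) Z, SB M (N ⊓ nz (Eg p e z)) η η') ∧
    Z ≤ N ∧ N ⊓ cz Z ≤ N ⊓ nz Z ∧ N ⊓ nz Z ≤ N ⊓ nz (Eg p e z) ∧ nz Z ≤ nz (Eg p e z) ∧ IsPGroup p Z

/-- **YSW** (short to medium; from NUB, CJG, ZGP, ZLM, TRN, FEQ, B2). STABILITY under any `w ∈ nz N ⊓ nz Z` which stabilises the block. Proof: (1) `w` normalises `N`, `Z`, so `cz Z`, `nz Z`, `E` (ZGP (5)), `nz E`. (2) `cjF w ψ ∈ IrrOn L`, `SB M N (cjF w ψ) (cjF w χ)` (CJG, `cjS w N = N`), `SB M N (cjF w χ) χ`; the unit class `(z₁, x₁)` of `ψ` goes to `(w z₁ w⁻¹, w x₁ w⁻¹)` (NUB (2)), `Zg (w z₁ w⁻¹) = cjS w Z = Z` (ZGP (1)).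
(3) `mt C (cjF w ψ) θ = mt C ψ (cjF w⁻¹ θ)` (substitution, `cjS w C = C`), `cjF w⁻¹ (st Z t ν θ) = st Z t ν' (cjF w⁻¹ θ)` (ZLM (4)), `iH N Z (cjF w θ₀) θ = iH N Z θ₀ (cjF w⁻¹ θ)` (`w` normalises `H`), and (2) for `w⁻¹`. (4) `iH N Z (cjF h θ₀) = iH N Z θ₀`. (5) every element of `Nw N w` is `n * w ^ k`, `cjF n χ = χ`, induction on `k` (`k : ℤ`; or `k : ℕ` as `w` has finite order). -/
def YSW_stmt : Prop :=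
  ∀ (p e m t : ℕ) (M : Ideal (integralClosure ℤ ℂ)), Setup p M → ∀ (G : Type) [Group G] [Finite G] (N : Subgroup G) (χ : G → ℂ) (Z : Subgroup G) (z x : G),
    ZN p e m t M N χ Z z x → ∀ w : G, w ∈ nz N → w ∈ nz Z → SB M N (cjF w χ) χ →
    (∀ L, L2 p e N z L → w ∈ nz L ∧ N ⊓ nz Z ≤ L ∧ L ≤ N) ∧
    (∀ L, w ∈ nz L → ∀ ψ ∈ GN p e m M N χ L Z, cjF w ψ ∈ GN p e m M N χ L Z) ∧
    (∀ L, w ∈ nz L → N ⊓ cz Z ≤ L → ∀ ψ ∈ GN p e m M N χ L Z, ∀ (θ₀ : G → ℂ) (ε : ℂ), Rw p e m t M N χ Z ψ θ₀ ε → Rw p e m t M N χ Z (cjF w ψ) (cjF w θ₀) ε) ∧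
    (∀ h ∈ N ⊓ nz Z, ∀ θ₀ : G → ℂ, iH N Z (cjF h θ₀) = iH N Z θ₀ ∧ ∀ (ψ : G → ℂ) (ε : ℂ), Rw p e m t M N χ Z ψ (cjF h θ₀) ε ↔ Rw p e m t M N χ Z ψ θ₀ ε) ∧
    (∀ g ∈ Nw N w, SB M N (cjF g χ) χ) ∧ w ∈ nz (N ⊓ cz Z) ∧ w ∈ nz (N ⊓ nz Z) ∧ w ∈ nz (Eg p e z)

/-- **YUX** (medium; from YCV, YUL, YIX, YDF, YGW, YSW, YBE, EXB, NUB, NUH, NUD, DEX, DGL, ZNU, ZGP, B2). THE BLOCK OF `N'` over `θ'`. Proof: `C' = N' ⊓ cz Z`, `C' ⊓ N = C`. EXB for `L = N'`, `Q = Z` (`Z ≤ N ≤ N'` a `p`-group, `N' ⊓ cz Z = C'`): `χ'' ∈ IrrOn N'`, `SB M N' θ' χ''`. YCV: `χ₁ ∈ IrrOn N`, `mt N χ'' χ₁ ≠ 0`, `SB M N χ₁ χ`, so `Ucl N χ₁ z x` (NUB (1)), and `SB M N (cjF g χ₁) χ₁` for `g ∈ N'` (YSW (5), CJG).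
YUL (`K = N`, `K' = N'`; YGW (1), (3)): `Ucl N' χ'' z x`: `ZN p e m t M N' χ'' Z z x`. NUH (`L = N'`, `K = C'`): `Ucl C' θ' (l z l⁻¹) (l x l⁻¹)`, `l ∈ N'`. It remains to show `Zg (l z l⁻¹) = Z`. `θ` has a unit class `(z₂, x₂)` in `C` with `Zg z₂ = Z`; NUD: `DefL p M C θ D₂ y₂`, `z₂ ∈ D₂`; DGL: `η₀ ∈ IrrOn (C ⊓ cz D₂)`, `SB M C η₀ θ`. DEX: `DefL p M C' θ' D y`.
YDF (`s` from YGW (7), YGW (2), `R = D₂`): `l₁ ∈ C'` with `l₁⁻¹ z₂ l₁ ∈ D`, of order `p ^ e`. ZNU (2) for `C'`, `θ'`, the unit class `(l z l⁻¹, l x l⁻¹)`: `Zg (l z l⁻¹) = cjS k (Zg (l₁⁻¹ z₂ l₁)) = cjS k (cjS l₁⁻¹ Z) = Z` (`k, l₁ ∈ C' ≤ cz Z ≤ nz Z`). -/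
def YUX_stmt : Prop :=
  ∀ (p e m t : ℕ) (M : Ideal (integralClosure ℤ ℂ)), Setup p M → ∀ (G : Type) [Group G] [Finite G] (N : Subgroup G) (χ : G → ℂ) (Z : Subgroup G) (z x w : G),
    HW p e m t M N χ Z z x w → ∀ θ ∈ GN p e m M N χ (N ⊓ cz Z) Z, ∀ θ' ∈ IrrOn (Nw N w ⊓ cz Z), mt (N ⊓ cz Z) θ' θ ≠ 0 →
    ∃ χ'' : G → ℂ, ZN p e m t M (Nw N w) χ'' Z z x ∧ θ' ∈ GN p e m M (Nw N w) χ'' (Nw N w ⊓ cz Z) Z

/-- **YUP** (short to medium; from YUL, YGW, YSW, YBE, NUB, NUX, NUF, CJG, ZGP). THE BLOCK OF `N'` over `ψ'`. Proof: case `L = N`: `L' = N'`, `χ' = ψ'`; `Ucl N ψ z x` (NUB (1)), the block is `N'`-stable (YSW (5)), YUL: `Ucl N' ψ' z x`. Case `L = N ⊓ nz E`: `L' = N' ⊓ nz E` (YGW (4), `w ∈ nz E`). Let `(z', x')` be the unit class of `ψ` in `L`, `Zg z' = Z`, so `Eg z' = E` (ZGP (4)). For `g ∈ L'` `SB M L (cjF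 g ψ) ψ`:
`g = n w ^ k`, `n ∈ L`, `cjF (w ^ k) ψ ∈ GN L` (YSW (2)), YBE (3). YUL for `K = L`, `K' = L' = Nw L w` (YGW for `L` in place of `N`: `WW p L Z w`): `Ucl L' ψ' z' x'`. NUX (`L := N'`): `χ' ∈ IrrOn N'`, `SB M N' ψ' χ'`; NUF: `Ucl N' χ' z' x'`. -/
def YUP_stmt : Prop :=
  ∀ (p e m t : ℕ) (M : Ideal (integralClosure ℤ ℂ)), Setup p M → ∀ (G : Type) [Group G] [Finite G] (N : Subgroup G) (χ : G → ℂ) (Z : Subgroup G) (z x w : G),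
    HW p e m t M N χ Z z x w → ∀ L, L2 p e N z L → ∀ ψ ∈ GN p e m M N χ L Z, ∀ ψ' ∈ IrrOn (Nw L w), mt L ψ' ψ ≠ 0 →
    ∃ (χ' : G → ℂ) (z' x' : G), ZN p e m t M (Nw N w) χ' Z z' x' ∧ L2 p e (Nw N w) z' (Nw L w) ∧ ψ' ∈ GN p e m M (Nw N w) χ' (Nw L w) Z

/-! ## 3. Orbits -/

/-- **YFY** (medium; from YGW, ZLM, ZGP, GOB, TRN). At most `p - 1` elements of a class under `orb` are conjugate under `H' = N' ⊓ nz Z`. Proof: `S' = {a ∈ H' | orb Z t θ (cjF a θ)}` is a subgroup (GOB (4): `orb` is preserved by `cjF a`). CLAIM: if `a ∈ S'` centralises `E` then `cjF a θ = θ`. `a = b c`, `b`, `c` powers of `a`, `b` a `p`-element, `c` `p`-regular; `b, c ∈ S'`. `b ∈ N` (YGW (2)), `SB M C (cjF b θ) θ` (`STR.sm`),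
so `b ∈ cz Z` (`STR.fx`; `b ^ p ^ k = 1`), `b ∈ C` and `cjF b θ = θ`. `c` is `p`-regular, normalises the cyclic `p`-group `Z` and centralises `E`, its subgroup of order `p`: `c u c⁻¹ = u ^ n` for `u ∈ Z`, `n ≡ 1` modulo `p`, so `n ^ p ^ (κ - 1) ≡ 1` modulo `p ^ κ`, `κ = m + 3`, `c ^ p ^ (κ - 1) ∈ cz Z` and `c ∈ cz Z` (`c` is a power of `c ^ p ^ (κ - 1)`). `cjF c θ = st Z t ν θ`,
and `cjF c (st Z t ν ψ) = st Z t ν (cjF c ψ)` (ZLM (4) with `c ∈ cz Z`), so `cjF (c ^ j) θ = st Z t (ν ^ j) θ`; `c ^ n = 1`, `p ∤ n`, and `ν ^ p ^ κ = 1`: `st Z t ν θ = θ`. So for `a, b ∈ S'` with `a⁻¹ b ∈ cz E`: `cjF a θ = cjF b θ`; `|S' / (S' ⊓ cz E)| ≤ p - 1` (`S' ≤ nz Z ≤ nz E`, `a ↦ n_a` modulo `p` is injective on the cosets). -/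
def YFY_stmt : Prop :=
  ∀ (p e m t : ℕ) (M : Ideal (integralClosure ℤ ℂ)), Setup p M → ∀ (G : Type) [Group G] [Finite G] (N : Subgroup G) (χ : G → ℂ) (Z : Subgroup G) (z x : G),
    ZN p e m t M N χ Z z x → STR p e m t M N χ Z z → ∀ w : G, WW p N Z w → ∀ θ ∈ GN p e m M N χ (N ⊓ cz Z) Z,
    {θ₁ : G → ℂ | orb Z t θ θ₁ ∧ ∃ a ∈ Nw N w ⊓ nz Z, θ₁ = cjF a θ}.Finite ∧
    {θ₁ : G → ℂ | orb Z t θ θ₁ ∧ ∃ a ∈ Nw N w ⊓ nz Z, θ₁ = cjF a θ}.ncard ≤ p - 1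

/-- **YAV** (short; from YFY, GOB). AVOIDING two sets. Proof: `O = {θ₁ | orb Z t θ₀ θ₁}` has at least `p ^ 3 > 2 (p - 1)` elements (`STR.sz`), all in `GN C` (`STR.sm`). `|A ∩ O| ≤ p - 1`: empty, or `θ₁ ∈ A ∩ O` and `A ∩ O` is contained in the set of YFY for `θ = θ₁` (`orb θ₁ θ₂`: GOB); the same for `B`. -/
def YAV_stmt : Prop :=
  ∀ (p e m t : ℕ) (M : Ideal (integralClosure ℤ ℂ)), Setup p M → ∀ (G : Type) [Group G] [Finite G] (N : Subgroup G) (χ : G → ℂ) (Z : Subgroup G) (z x : G),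
    ZN p e m t M N χ Z z x → STR p e m t M N χ Z z → ∀ w : G, WW p N Z w → ∀ θ₀ ∈ GN p e m M N χ (N ⊓ cz Z) Z, ∀ A B : Set (G → ℂ),
    (∀ θ₁ ∈ A, ∀ θ₂ ∈ A, orb Z t θ₀ θ₁ → orb Z t θ₀ θ₂ → ∃ a ∈ Nw N w ⊓ nz Z, θ₂ = cjF a θ₁) →
    (∀ θ₁ ∈ B, ∀ θ₂ ∈ B, orb Z t θ₀ θ₁ → orb Z t θ₀ θ₂ → ∃ a ∈ Nw N w ⊓ nz Z, θ₂ = cjF a θ₁) →
    ∃ ν : Z →* ℂˣ, st Z t ν θ₀ ∉ A ∧ st Z t ν θ₀ ∉ B

/-- **YHC** (short to medium; from ZGP, YBE, B2). The sets `FF` are small. Proof: `S = {h ∈ H | cjF h θ₀ = θ₀}` is a subgroup of `G` which contains `C` (class functions of `C`). If `h ∈ S` centralises `E` then `h ∈ C`: as in YFY `h = b c`; `b` is a `p`-element in `S`: `SB M C (cjF b θ₀) θ₀`, `b ∈ cz Z` (`STR.fx`); `c` is `p`-regular, centralises `E`, so `c ∈ cz Z`. So `|S| ≤ (p - 1) |C|` (as in YFY). `STR.ct`: `|C| * ncard = |S|`,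 `1 ≤ |S|`, so `1 ≤ ncard ≤ p - 1`
(a set with `ncard ≠ 0` is finite). -/
def YHC_stmt : Prop :=
  ∀ (p e m t : ℕ) (M : Ideal (integralClosure ℤ ℂ)), Setup p M → ∀ (G : Type) [Group G] [Finite G] (N : Subgroup G) (χ : G → ℂ) (Z : Subgroup G) (z x : G),
    ZN p e m t M N χ Z z x → STR p e m t M N χ Z z → ∀ L, L2 p e N z L → ∀ θ₀ ∈ GN p e m M N χ (N ⊓ cz Z) Z,
    (FF p e m t M N χ Z L θ₀).Finite ∧ (FF p e m t M N χ Z L θ₀).ncard ≠ 0 ∧ (FF p e m t M N χ Z L θ₀).ncard ≤ p - 1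

/-- **YFF** (short; from YAV, GOB, YSW (4)). The orbit of `θ₀` is unique. Proof: YAV for `w = 1` (`Nw N 1 = N`, `WW p N Z 1`), `A = {θ | ∃ h ∈ H, cjF h θ₀ = θ}`, `B = {θ | ∃ h ∈ H, cjF h θ₁ = θ}`: `ν` with `iH N Z θ₀ (st ν θ₀) = 0 = iH N Z θ₁ (st ν θ₀)`. The two rows of `ψ` at `θ₀`, `st ν θ₀`: `ε = mt - mt = ε₁ * iH N Z θ₁ θ₀`, so `iH N Z θ₁ θ₀ ≠ 0`. -/
def YFF_stmt : Prop :=
  ∀ (p e m t : ℕ) (M : Ideal (integralClosure ℤ ℂ)), Setup p M → ∀ (G : Type) [Group G] [Finite G] (N : Subgroup G) (χ : G → ℂ) (Z : Subgroup G) (z x : G),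
    ZN p e m t M N χ Z z x → STR p e m t M N χ Z z → ∀ L : Subgroup G, ∀ θ₀ ∈ GN p e m M N χ (N ⊓ cz Z) Z, ∀ θ₁ ∈ GN p e m M N χ (N ⊓ cz Z) Z,
    ∀ ψ ∈ FF p e m t M N χ Z L θ₀, ψ ∈ FF p e m t M N χ Z L θ₁ → ∃ h ∈ N ⊓ nz Z, cjF h θ₁ = θ₀

/-! ## 4. The length of the orbit of `ψ` -/

/-- **YRS** (short; from YCL, YSW, EXP or B3, B2). Restriction of `ψ'` to `L`. Proof: YCL for `K = L`, `s = w`: `ψ'` restricted to `L` is the sum of the different `cjF (w ^ k) ψ` (expansion of the restriction with coefficients `mt L ψ' φ`), so `mt C ψ' f = ∑ mt C φ f` (only the values on `C ≤ L` are used). -/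
def YRS_stmt : Prop :=
  ∀ (G : Type) [Group G] [Finite G] (C L : Subgroup G) (w : G), w ∈ nz L → C ≤ L → ∀ ψ ∈ IrrOn L, ∀ ψ' ∈ IrrOn (Nw L w), mt L ψ' ψ ≠ 0 →
    ∀ f : G → ℂ, mt C ψ' f = ∑ᶠ φ ∈ {φ : G → ℂ | ∃ k : ℕ, φ = cjF (w ^ k) ψ}, mt C φ f

open Classical in
/-- **YRW** (medium; from YSN, YUP, YUX, YSW, CJG, YGW, ZGP, TRN). THE ROW OF `ψ'`. Proof: YUP: `χ'`, `z'`, `x'`, `L2 .. N' z' L'`, `ψ' ∈ GN N' χ' L' Z`; YSN: `STR p e m t M N' χ' Z z'`; `ex`: `θ₀' ∈ GN N' χ' C' Z`, `ε'`, `Rw p e m t M N' χ' Z ψ' θ₀' ε'`. Let `θ ∈ GN N χ C Z`, `θ'` over `θ`. YUX: `χ''`, `ZN .. N' χ'' Z z x`, `θ' ∈ GN N' χ'' C' Z`; YSN: `STR p e m t M N' χ'' Z z`; `sm`: `st ν θ' ∈ GN N' χ'' C' Z`.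
If `SB M N' χ'' χ'` then `θ' ∈ GN N' χ' C' Z` and `Rw` is the claim. If not: `ψ' ∉ GN N' χ'' L' Z` (otherwise `SB M N' χ'' χ'`), `ou` for `(N', χ'')` (`C' ≤ L' ≤ N'`): `mt C' ψ' θ' = mt C' ψ' (st ν θ')`; and `θ'`, `st ν θ'` are not `cjF a θ₀'`, `a ∈ H' ≤ N'`: `SB M N' (cjF a θ₀') θ₀'` (CJG (6)), `SB M N' θ₀' χ'`, whereas `SB M N' θ' χ''`, `SB M N' (st ν θ') χ''`. -/
def YRW_stmt : Prop :=
  ∀ (p e m t : ℕ) (M : Ideal (integralClosure ℤ ℂ)), Setup p M → ∀ (G : Type) [Group G] [Finite G] (N : Subgroup G) (χ : G → ℂ) (Z : Subgroup G) (z x w : G),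
    HW p e m t M N χ Z z x w → ∀ L, L2 p e N z L → ∀ ψ ∈ GN p e m M N χ L Z, ∀ ψ' ∈ IrrOn (Nw L w), mt L ψ' ψ ≠ 0 →
    ∃ (θ₀' : G → ℂ) (ε' : ℂ), θ₀' ∈ IrrOn (Nw N w ⊓ cz Z) ∧ (ε' = 1 ∨ ε' = -1) ∧
      ∀ θ ∈ GN p e m M N χ (N ⊓ cz Z) Z, ∀ θ' ∈ IrrOn (Nw N w ⊓ cz Z), mt (N ⊓ cz Z) θ' θ ≠ 0 → ∀ ν : Z →* ℂˣ,
        st Z t ν θ' ∈ IrrOn (Nw N w ⊓ cz Z) ∧
        mt (Nw N w ⊓ cz Z) ψ' θ' - mt (Nw N w ⊓ cz Z) ψ' (st Z t ν θ') =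
          ε' * ((if ∃ a ∈ Nw N w ⊓ nz Z, cjF a θ₀' = θ' then (1 : ℂ) else 0) - (if ∃ a ∈ Nw N w ⊓ nz Z, cjF a θ₀' = st Z t ν θ' then 1 else 0))

/-- **YEA** (medium; from YRS, YRW, YRI, YSW, YCL, YGW, ZLM, B2). THE IDENTITY. Proof: `ψ' ∈ IrrOn L'` over `ψ` (YCL (2)). All `φ = cjF (w ^ k) ψ` satisfy `Rw .. φ θ₀ ε` (YSW (3), (4): `cjF (w ^ k) θ₀ = cjF h_k θ₀`, `h_k ∈ H`, by induction; `w` normalises `H`), so by YRS `mt C ψ' θ - mt C ψ' (st ν θ) = r * ε * (iH θ - iH (st ν θ))`, `r` the number of the `φ`. By YRI (`φ := ψ'`, a class function of `L' ≥ C'`) for `ν` and for `ν = 1` (`st Z t 1 θ = θ`):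
the left side is `∑_{θ' | θ} (mt C' ψ' θ' - mt C' ψ' (st ν θ'))`, by YRW `ε' * ∑_{θ' | θ} ([θ' ∈ H' θ₀'] - [st ν θ' ∈ H' θ₀'])`. `∑_{θ' | θ} [θ' ∈ H' θ₀'] = rN' N N' Z θ θ₀'`; `θ' ↦ st ν θ'` is a bijection from the `θ'` over `θ` onto the `θ'` over `st ν θ` (`mt C (st ν θ') (st ν θ) = mt C θ' θ` by ZLM (1), `st ν θ' ∈ IrrOn C'` by YRW, inverse `ν⁻¹`; `st ν θ ∈ GN C` by `STR.sm`): the second sum is `rN' N N' Z (st ν θ) θ₀'`. -/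
def YEA_stmt : Prop :=
  ∀ (p e m t : ℕ) (M : Ideal (integralClosure ℤ ℂ)), Setup p M → ∀ (G : Type) [Group G] [Finite G] (N : Subgroup G) (χ : G → ℂ) (Z : Subgroup G) (z x w : G),
    HW p e m t M N χ Z z x w → STR p e m t M N χ Z z → ∀ L, L2 p e N z L → ∀ θ₀ ∈ GN p e m M N χ (N ⊓ cz Z) Z, (∃ h ∈ N ⊓ nz Z, cjF w θ₀ = cjF h θ₀) →
    ∀ ψ ∈ GN p e m M N χ L Z, ∀ ε : ℂ, Rw p e m t M N χ Z ψ θ₀ ε →
    ∃ (θ₀' : G → ℂ) (ε' : ℂ), θ₀' ∈ IrrOn (Nw N w ⊓ cz Z) ∧ (ε' = 1 ∨ ε' = -1) ∧ ∀ θ ∈ GN p e m M N χ (N ⊓ cz Z) Z, ∀ ν : Z →* ℂˣ,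
      ({φ : G → ℂ | ∃ k : ℕ, φ = cjF (w ^ k) ψ}.ncard : ℂ) * ε * (iH N Z θ₀ θ - iH N Z θ₀ (st Z t ν θ)) =
        ε' * ((rN' N (Nw N w) Z θ θ₀' : ℂ) - (rN' N (Nw N w) Z (st Z t ν θ) θ₀' : ℂ))

/-- **YEB** (short to medium; from YEA, YAV, YGR, YCL, YGW, B2). THE LENGTH OF THE ORBIT. Proof: YAV for `A = {θ | ∃ h ∈ H, cjF h θ₀ = θ}` and `B = {θ ∈ IrrOn C | rN' N N' Z θ θ₀' ≠ 0}`. (`B`: if `θ₁, θ₂ ∈ B` there are `θ₁'' = cjF a θ₀'` over `θ₁` and `θ₂'' = cjF b θ₀'` over `θ₂`, `a, b ∈ H'`; `cjF (b a⁻¹) θ₁` is under `θ₂''` (`b a⁻¹` normalises `C`), so by YCL (4) for `C' = C ⊔ ⟨s⟩` (YGW (7)) `θ₂ = cjF (c b a⁻¹) θ₁`, `c ∈ C' ≤ H'`.)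
`θ = θ₀` and this `ν` in YEA: `r * ε = ε' * rN' N N' Z θ₀ θ₀'` (`st ν θ₀ ∈ IrrOn C`: `STR.sm`). `r ≥ 1` (the set is finite: `w` has finite order, and contains `ψ`), so `ε = ε'` and `r = rN' N N' Z θ₀ θ₀' ≠ 0`: there is `θ'' = cjF a θ₀'` over `θ₀`, `a ∈ H'`, and `rN' N N' Z θ₀ θ₀' = rN' N N' Z θ₀ θ''` (the same `H'`-orbit) `= rN' N N' Z θ₀ θ'` (YGR). -/
def YEB_stmt : Prop :=
  ∀ (p e m t : ℕ) (M : Ideal (integralClosure ℤ ℂ)), Setup p M → ∀ (G : Type) [Group G] [Finite G] (N : Subgroup G) (χ : G → ℂ) (Z : Subgroup G) (z x w : G),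
    HW p e m t M N χ Z z x w → STR p e m t M N χ Z z → ∀ L, L2 p e N z L → ∀ θ₀ ∈ GN p e m M N χ (N ⊓ cz Z) Z, (∃ h ∈ N ⊓ nz Z, cjF w θ₀ = cjF h θ₀) →
    ∀ ψ ∈ FF p e m t M N χ Z L θ₀, ∀ θ' ∈ IrrOn (Nw N w ⊓ cz Z), mt (N ⊓ cz Z) θ' θ₀ ≠ 0 →
    {φ : G → ℂ | ∃ k : ℕ, φ = cjF (w ^ k) ψ}.ncard = rN' N (Nw N w) Z θ₀ θ'

/-- **YPF** (short; from YHC, YSW). `p`-elements fix everything. Proof: `cjF (w ^ k) ψ ∈ FF L θ₀` for all `k` (YSW (2), (3), (4)), a set with at most `p - 1` elements (YHC); `⟨w⟩` acts on it, the length of the orbit of `ψ` is a power of `p` (`w ^ p ^ j = 1`; `IsPGroup` / the least period divides `p ^ j`), so `1`. -/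
def YPF_stmt : Prop :=
  ∀ (p e m t : ℕ) (M : Ideal (integralClosure ℤ ℂ)), Setup p M → ∀ (G : Type) [Group G] [Finite G] (N : Subgroup G) (χ : G → ℂ) (Z : Subgroup G) (z x : G),
    ZN p e m t M N χ Z z x → STR p e m t M N χ Z z → ∀ w : G, PEl p w → w ∈ nz N → w ∈ nz Z → SB M N (cjF w χ) χ → ∀ L, L2 p e N z L →
    ∀ θ₀ ∈ GN p e m M N χ (N ⊓ cz Z) Z, (∃ h ∈ N ⊓ nz Z, cjF w θ₀ = cjF h θ₀) → ∀ ψ ∈ FF p e m t M N χ Z L θ₀, cjF w ψ = ψ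

/-- **YWF** (short to medium; from YPF, YEB, YFF, YSW, YSN, YCL, YGW, PPT-type decomposition). THE STABILISERS AGREE. Proof: `STR` from YSN. `w = b c` with powers `b`, `c` of `w`, `b` a `p`-element, `c` `p`-regular; both are in `nz N`, `nz Z` and stabilise the block. `w` fixes `ψ` iff `b` and `c` do. `→`: `cjF w ψ = ψ`: `ψ ∈ FF N θ₀` and `ψ = cjF w ψ ∈ FF N (cjF w θ₀)` (YSW), so `cjF w θ₀ = cjF h θ₀` with `h ∈ H` (YFF), the same for all powers of `w`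
(`w` normalises `H`). `b` fixes `ψ₁` (YPF). `c`: `HW .. c`; `θ'` over `θ₀` (YCL (2) for `C' = C ⊔ ⟨s⟩`), YEB for `L = N`, `ψ` and `L = N ⊓ nz E`, `ψ₁`: the numbers of the `cjF (c ^ k) ψ` and of the `cjF (c ^ k) ψ₁` agree; the first is `1`. `←`: in the same way. -/
def YWF_stmt : Prop :=
  ∀ (p e m t : ℕ) (M : Ideal (integralClosure ℤ ℂ)), Setup p M → ∀ (G : Type) [Group G] [Finite G] (N : Subgroup G) (χ : G → ℂ) (Z : Subgroup G) (z x : G),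
    ZN p e m t M N χ Z z x → ∀ w : G, w ∈ nz N → w ∈ nz Z → SB M N (cjF w χ) χ → ∀ θ₀ ∈ GN p e m M N χ (N ⊓ cz Z) Z,
    ∀ ψ ∈ FF p e m t M N χ Z N θ₀, ∀ ψ₁ ∈ FF p e m t M N χ Z (N ⊓ nz (Eg p e z)) θ₀, (cjF w ψ = ψ ↔ cjF w ψ₁ = ψ₁)

/-- **YNC** (medium; from YWF, YSN, YFF, YBE, YSW, YPT, YHC, ZNU, ZGP, NUB, CJG, TEX, B2). THE EQUIVARIANT COUNT. Proof: `Z = Zg p e m z`, `t` from TEX: `ZN p e m t M N χ Z z x`; `N₁ = N ⊓ nz E`. (A) If `δ ∈ Δ` with `¬ SB M N (cjF δ χ) χ` then both sets are empty: `ψ = cjF δ ψ`, `SB M N ψ χ` would give `SB M N (cjF δ χ) χ` (CJG); on the right `δ = n δ₁`, `n ∈ N`, `δ₁ ∈ Δ ⊓ nz E` (`Δ ≤ N ⊔ (Δ ⊓ nz E)`, `Δ ⊓ nz E` normalises `N`),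
`cjF δ₁ η = η` and `SB M N η χ` give `SB M N (cjF δ₁ χ) χ`, and `cjF δ χ = cjF n (cjF δ₁ χ) = cjF δ₁ χ`. (B) All `δ ∈ Δ` stabilise the block. For `δ ∈ Δ`: `Ucl N χ (δ z δ⁻¹) (δ x δ⁻¹)` (NUB (2), (1)), ZNU (1): `cjS δ Z = cjS n Z`, `n ∈ N`: `n⁻¹ δ ∈ Δ ⊓ nz Z`; so `Δ ≤ N ⊔ (Δ ⊓ nz E)` (`nz Z ≤ nz E`), and for `δ ∈ Δ ⊓ nz E` also `n ∈ N₁`. So `ψ` (a class function of `N`)
is `Δ`-invariant iff it is fixed by all `w ∈ Δ ⊓ nz Z`, and `η` (a class function of `N₁`) is `Δ ⊓ nz E`-invariant iff it is fixed by all `w ∈ Δ ⊓ nz Z`. YPT for `I = GN C`, `R θ₀ θ₁ = ∃ h ∈ H, cjF h θ₁ = θ₀`, `S = Bl M N χ = GN N`, `T = BE = GN N₁` (YBE), `Fa = FF N`, `Fb = FF N₁` (`STR.ex`, YFF, YSW (4), `STR.ct` with `|C| > 0`), `P ψ = Defect p N ψ d` and fixed by the `w ∈ Δ ⊓ nz Z`; `P ↔ Q`: `STR.df`, YWF. -/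
def YNC_stmt : Prop :=
  ∀ (p e m : ℕ) (M : Ideal (integralClosure ℤ ℂ)), Setup p M → 2 * m + bz p + m / 2 ≤ e → 2 * m + 5 ≤ e → ∀ (G : Type) [Group G] [Finite G] (N : Subgroup G),
    ∀ χ ∈ IrrOn N, ∀ z x : G, Ucl p e m M N χ z x → ∀ Δ : Subgroup G, N ≤ Δ → Δ ≤ nz N → ∀ d : ℤ,
    {ψ : G → ℂ | ψ ∈ Bl M N χ ∧ Defect p N ψ d ∧ ∀ δ ∈ Δ, cjF δ ψ = ψ}.ncard =
      {η : G → ℂ | η ∈ BE p e m M N (N ⊓ nz (Eg p e z)) (Eg p e z) χ ∧ Defect p (N ⊓ nz (Eg p e z)) η d ∧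
        (∀ δ ∈ Δ ⊓ nz (Eg p e z), cjF δ η = η) ∧ Δ ≤ N ⊔ (Δ ⊓ nz (Eg p e z))}.ncard

end Pool.Agent.NE
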