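import Mathlib
import Pool.Agent.helper37.NE.SpecB
import Pool.Agent.helper35.DR.SpecR
import Pool.Agent.helper97.NA.SpecE

/-!
# MP_baa4d7_al, THEOREM NE, part C: chains, the toggle, extensions, the final statement

RULES FOR ROWS as in `SpecA.lean` (import `Pool.Agent.helper37.NE.SpecC`, namespace `Pool.Agent.NE`, the same `open` line, file `Pool/Agent/<seat>/NE/XXX.lean`).

NOTATION. `Γ` finite, `G₀` a normal subgroup, `χ₀ ∈ IrrOn G₀` (in the application `Γ = E`, `G₀ = X.inc.range`, `χ₀ = ext0 X.inc χ`). `hf` (DR): `|Δ ⊓ G₀| * #{φ ∈ IrrOn (Δ ⊓ G₀)` `Δ`-invariant, of defect `d`, with `Cov}` if `Δ ⊔ G₀ = ⊤`, otherwise `0`.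
All rows of DI (`helper81/DI/SpecA..D`), DR (`helper35/DR/SpecA..R`: RST RPA CFE ..) and DC (`RE`, `ST`) are proved (`helper35/DR/AllDI` and the files `All` of DR) and may be hypotheses.
-/

set_option autoImplicit false

namespace Pool.Agent.NE

open Pool.Agent.helper58.DC Pool.Agent.DI Pool.Agent.GR Pool.Agent.OB Pool.Agent.DR Pool.Agent.FI Pool.Agent.FI3 Pool.Agent.FI4 Pool.Agent.FI4I Pool.Agent.LE Pool.Agent.L5 Pool.Agent.NAB Pool.Agent.ND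

section

variable {G : Type} [Group G]

open Classical in
/-- `|Δ ⊓ G₀|` times the number of the `Δ`-invariant characters of `Δ ⊓ G₀` of defect `d` in the blocks `b` with `b ^ G₀` the block of `χ₀`, if `Δ ⊔ G₀ = ⊤`; otherwise `0`. -/
noncomputable def hB (p : ℕ) (M : Ideal (integralClosure ℤ ℂ)) (G₀ : Subgroup G) (χ₀ : G → ℂ) (d : ℤ) (Δ : Subgroup G) : ℤ :=
  if Δ ⊔ G₀ = ⊤ then (Nat.card (Δ ⊓ G₀ : Subgroup G) : ℤ) *
    ({φ : G → ℂ | φ ∈ IrrOn (Δ ⊓ G₀) ∧ SB M G₀ φ χ₀ ∧ Defect p (Δ ⊓ G₀) φ d ∧ ∀ δ ∈ Δ, cjF δ φ = φ}.ncard : ℤ) else 0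

open Classical in
/-- The same for the set `BE` of the subgroup `K ⊓ G₀`. -/
noncomputable def hE (p e m : ℕ) (M : Ideal (integralClosure ℤ ℂ)) (G₀ : Subgroup G) (χ₀ : G → ℂ) (d : ℤ) (E' K : Subgroup G) : ℂ :=
  if K ⊔ G₀ = ⊤ then (Nat.card (K ⊓ G₀ : Subgroup G) : ℂ) *
    ({η : G → ℂ | η ∈ BE p e m M G₀ (K ⊓ G₀) E' χ₀ ∧ Defect p (K ⊓ G₀) η d ∧ ∀ κ ∈ K, cjF κ η = η}.ncard : ℂ) else 0

end

/-- **YTD** (short to medium; COPY TDC, grep `theorem TDC`, with a weight which depends on `(E', η)`; from NUF, NUE, NBC, CJG, NEG, FEQ, B2). Proof: if the term for `E'` is not `0` then `E' = cjS l E`, `l ∈ L` (NUF: `Ucl L ψ z' x'`, `Eg z' = E'`; NUE); `η ↦ cjF l η` is a bijection from `BE p e m M L (L ⊓ nz E) E ψ` onto `BE p e m M L (L ⊓ nz E') E' ψ`, `L ⊓ nz E' = cjS l (L ⊓ nz E)`. -/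
def YTD_stmt : Prop :=
  ∀ (p e m : ℕ) (M : Ideal (integralClosure ℤ ℂ)), Setup p M → m < e → ∀ (G : Type) [Group G] [Finite G] (L : Subgroup G),
    ∀ ψ ∈ IrrOn L, ∀ z x : G, Ucl p e m M L ψ z x → ∀ W : Subgroup G → (G → ℂ) → ℂ, (∀ l ∈ L, ∀ E' η, W (cjS l E') (cjF l η) = W E' η) →
    ∑ᶠ E' : Subgroup G, (Nat.card (L ⊓ nz E' : Subgroup G) : ℂ) * ∑ᶠ η ∈ BE p e m M L (L ⊓ nz E') E' ψ, W E' η =
      (Nat.card L : ℂ) * ∑ᶠ η ∈ BE p e m M L (L ⊓ nz (Eg p e z)) (Eg p e z) ψ, W (Eg p e z) η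

/-- **YNL** (medium; COPY TDL, grep `theorem TDL`; from XPB of `helper97/NA/SpecE` (`Pool.Agent.NAB.XPB_stmt`), YNC, YTD, NUH, NUX, TRN, CJG, FEQ, B2). The local blocks. Proof: `Δ ⊔ G₀ ≠ ⊤`: all terms are `0` (`Δ ⊓ nz E' ≤ Δ`). Otherwise `N = Δ ⊓ G₀`, normal in `Δ`, `(Δ ⊓ nz E') ⊓ G₀ = N ⊓ nz E'`. XPB (as in TDL) with `A = {φ ∈ IrrOn N | SB M G₀ φ χ₀}`, `r = SB M N`,
`w φ = [Defect p N φ d ∧ Δ`-invariant`]`, `B = {(E', η) | η ∈ BE p e m M G₀ (N ⊓ nz E') E' χ₀}`, `v (E', η) = |N ⊓ nz E'| * W E' η`, `W E' η = [Defect p (N ⊓ nz E') η d ∧ (Δ ⊓ nz E')`-invariant `∧ (Δ ⊓ nz E') ⊔ G₀ = ⊤]`, `S (E', η) φ = SB M N η φ`, `c = |N|`. For `φ ∈ A`: NUH (`L = G₀`, `K = N`): a unit class `(z', x')` of `φ` in `N`;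
YTD for `L = N`, `ψ = φ` (`W (cjS l E') (cjF l η) = W E' η` for `l ∈ N ≤ Δ`: `nz (cjS l E') = cjS l (nz E')`, `cjS l Δ = Δ`): the sum over the `(E', η)` with `SB M N η φ` is `|N| * ∑_{η ∈ BE p e m M N (N ⊓ nz E) E φ} W E η`, `E = Eg z'`, and by YNC (`Δ ≤ nz N`) this is `|N| *` the number of the `ψ ∈ Bl M N φ` with defect `d`, `Δ`-invariant:
`Δ ≤ N ⊔ (Δ ⊓ nz E)` iff `(Δ ⊓ nz E) ⊔ G₀ = ⊤` (`→`: `⊤ = Δ ⊔ G₀ ≤ (Δ ⊓ nz E) ⊔ G₀`; `←`: `δ = κ g`, `κ ∈ Δ ⊓ nz E`, `g ∈ G₀`, so `g = κ⁻¹ δ ∈ Δ ⊓ G₀ = N`; `Subgroup.mem_sup` for the normal subgroup `G₀`). -/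
def YNL_stmt : Prop :=
  ∀ (p e m : ℕ) (M : Ideal (integralClosure ℤ ℂ)), Setup p M → 2 * m + bz p + m / 2 ≤ e → 2 * m + 5 ≤ e → ∀ (G : Type) [Group G] [Finite G] (G₀ : Subgroup G),
    G₀.Normal → ∀ χ₀ ∈ IrrOn G₀, ∀ z x : G, Ucl p e m M G₀ χ₀ z x → ∀ (d : ℤ) (Δ : Subgroup G),
    (hB p M G₀ χ₀ d Δ : ℂ) = ∑ᶠ E' : Subgroup G, hE p e m M G₀ χ₀ d E' (Δ ⊓ nz E')

/-- **YNF** (short; from YNL, YTG, NEG, B2; compare TDF, grep `theorem TDF`). THE CHAIN SUM. Proof: cast to `ℂ`; `⊤ ⊓ nrm C = nrm C`; YNL for `Δ = nrm C`, exchange the finite sums over `C` and `E'`. For fixed `E'`: if `hE .. E' K ≠ 0` for some `K` then there is `η ∈ BE p e m M G₀ (K ⊓ G₀) E' χ₀` with a unit class `(z', x')` in `K ⊓ G₀`, `Eg z' = E' ≤ K ⊓ G₀` (NEG (2)), `E'` is a `p`-group, `E' ≠ ⊥` (NEG (6)).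
So if some `hE .. E' K ≠ 0`: the terms with `¬ E' ≤ nrm C` are `0` (`K = nrm C ⊓ nz E'`), the others sum to `0` by YTG (`R = ⊥`, `F K = hE .. E' K`, `nz E' ⊓ nrm C`). -/
def YNF_stmt : Prop :=
  ∀ (p e m : ℕ) (M : Ideal (integralClosure ℤ ℂ)), Setup p M → 2 * m + bz p + m / 2 ≤ e → 2 * m + 5 ≤ e → ∀ (G : Type) [Group G] [Finite G] (G₀ : Subgroup G),
    G₀.Normal → ∀ χ₀ ∈ IrrOn G₀, ∀ z x : G, Ucl p e m M G₀ χ₀ z x → ∀ d : ℤ, cSum p G₀ ⊥ ⊤ (hB p M G₀ χ₀ d) = 0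

/-- **YCB** (medium; from NFV, CFA, CCJ, EXB, NOB, DCM, CLS, TRN, FMX-type argument, B2, C1 of DI). `Cov` and `SB`. Proof: `←`: `omega φ g = cc φ (cls ⊤ g)` (CLS) for `g ∈ G₀`, `cls ⊤ g` is a class function of `G₀` with integral values which vanishes outside `G₀`. `→`: (a) there is `b ∈ IrrOn G₀` with `SB M G₀ φ b`: if `C = {⊥}` then `nrm C = nz ⊥ = ⊤`, `b = φ`. Otherwise let `P` be the largest term of `C`, `N = nrm C ⊓ G₀`:
`P ≤ N` (`P` normalises every `Q ∈ C`: `NCh.nm`), `N ≤ nz P`, `G₀ ⊓ cz P ≤ N` (an element of `cz P` centralises every term), so `N ⊓ cz P = G₀ ⊓ cz P`. CFA (1) for `K = N ⊓ cz P ≤ N ≤ nz K`: `ψ ∈ IrrOn (N ⊓ cz P)`, `OverE (N ⊓ cz P) N φ ψ n`, NFV: `SB M N φ ψ`; EXB for `L = G₀`, `Q = P`: `b ∈ IrrOn G₀`, `SB M G₀ ψ b`; TRN: `SB M G₀ φ b`.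
(b) `Cov M G₀ (omega χ₀) b`: by `←` for `φ`, `b` (`omega φ g ≡ omega b g` for `g ∈ G₀`). So `SB M ⊤ b χ₀` (DCM (3); for `y ∉ G₀` `cls ⊤ y` vanishes on `G₀`, both sides are `0`). NOB (`K = G₀`, `H = ⊤`): `h` with `SB M G₀ (cjF h χ₀) b`, and `SB M G₀ (cjF h χ₀) χ₀`: `SB M G₀ φ χ₀`. -/
def YCB_stmt : Prop :=
  ∀ (p : ℕ) (M : Ideal (integralClosure ℤ ℂ)), Setup p M → ∀ (G : Type) [Group G] [Finite G] (G₀ : Subgroup G), G₀.Normal → ∀ χ₀ ∈ IrrOn G₀,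
    (∀ g : G, SB M G₀ (cjF g χ₀) χ₀) → ∀ C : Finset (Subgroup G), NCh p G₀ ⊥ C → ∀ φ ∈ IrrOn (nrm C ⊓ G₀),
    (Cov M G₀ (omega χ₀) φ ↔ SB M G₀ φ χ₀)

/-- **YNG** (short; from YNF, YCB, FNO). Proof: FNO (`L = G₀`, `P = ⊥`, `N = ⊤`) for `g = hf p M G₀ G₀ (omega χ₀) d` and for `g = hB p M G₀ χ₀ d`: both `cSum` are sums over the normal chains `NCh p G₀ ⊥ C`, `⊤ ⊓ nrm C = nrm C`, and the terms agree by YCB (`Nat.card` of the subtype is the `ncard` of the set; `cjF n = funMap (MulAut.conj n)`). YNF. -/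
def YNG_stmt : Prop :=
  ∀ (p e m : ℕ) (M : Ideal (integralClosure ℤ ℂ)), Setup p M → 2 * m + bz p + m / 2 ≤ e → 2 * m + 5 ≤ e → ∀ (G : Type) [Group G] [Finite G] (G₀ : Subgroup G),
    G₀.Normal → ∀ χ₀ ∈ IrrOn G₀, (∀ g : G, SB M G₀ (cjF g χ₀) χ₀) → ∀ z x : G, Ucl p e m M G₀ χ₀ z x → ∀ d : ℤ,
    cSum p G₀ ⊥ ⊤ (hf p M G₀ G₀ (omega χ₀) d) = 0

/-- **YTC** (short to medium; from B13, TPR, DCM, CLS, C1). Transport along `i = X.inc`. Proof: (1) B13 for `N = ⊤` (`(⊤ : Subgroup G).map i = i.range`; `IrrOn ⊤ = Irr G`: TPR). (2) `i` is injective: orders, `PEl`, `PReg`; `cc (ext0 i χ) (cls i.range (i y)) = cc χ (cls ⊤ y)` (the sum over `E` is the sum over `i.range`: `ext0` vanishes outside; `cls i.range (i y) (i g) = cls ⊤ y g`; `ext0 i χ 1 = χ 1`);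
`Cz i.range (i y) = (Cz ⊤ y).map i`, the same cardinality, so the same `pp`. (3) the normality: `X.proj.ker` or `X.act_spec`. For `g : E`: `cjF g (ext0 i χ) = ext0 i (funMap (X.act g) χ)` (B13, last item, `X.act_spec`); `Induces M (funMap (X.act g) χ) χ` is `SB M ⊤ (funMap (X.act g) χ) χ` (TPR), and `SB` of `i.range` can be tested on class sums (DCM (3)) of elements `i y`, as in (2). -/
def YTC_stmt : Prop :=
  ∀ (p e m : ℕ) (M : Ideal (integralClosure ℤ ℂ)), Setup p M → ∀ (G E A : Type) [Group G] [Group E] [Group A] [Finite G] [Finite E] (X : Extension G E A),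
    ∀ χ ∈ Irr G, ext0 X.inc χ ∈ IrrOn X.inc.range ∧
    (∀ z x : G, Ucl p e m M (⊤ : Subgroup G) χ z x → Ucl p e m M X.inc.range (ext0 X.inc χ) (X.inc z) (X.inc x)) ∧
    X.inc.range.Normal ∧
    (Stable X M χ → ∀ g : E, SB M X.inc.range (cjF g (ext0 X.inc χ)) (ext0 X.inc χ))

/-- **YR0** (medium; from RPA, RST, D1, B13, B2, C1; or directly as in the proof of RPA). The relation for the trivial subgroup `⊥` of `A` is `altSum = 0`. Proof: `(⊥ : Subgroup A).comap X.proj = X.proj.ker = X.inc.range` (RST). RPA for `N = ⊥`: `Rel X p M χ ⊥ d`. In `relT X p ⊥ C ψ d` with `ψ ∈ IrrOn (nrm C)`: `S = X.stab C ψ`, `K = S ⊓ X.proj.ker = (nrm C).map X.inc` (RST), and `L = S ⊓ (⊥).comap X.proj = K`.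
`inn p K S K (ext0 X.inc ψ) d`: `φ ∈ IrrOn K` with `φ x = e * ext0 X.inc ψ x` on `K` (both in `IrrOn K`, B13), so `φ = e • ext0 X.inc ψ`, and the norm (B2) gives `e = 1` (`e` is a natural number, `φ ≠ 0`): `φ = ext0 X.inc ψ`, which is `S`-invariant (RST); so `inn = 1` if `Defect p (nrm C) ψ d` (B13) and `0` otherwise, `relT = |nrm C| * [Defect p (nrm C) ψ d]` (`|(nrm C).map X.inc| = |nrm C|`).
`(X.stab C ψ).map X.proj ⊔ ⊥ = ⊤`. So `Rel` is `∑_C (-1) ^ (C.card + 1) * |nrm C| * kC X p M χ d ⊤ C = 0` (definition of `kC`), which is `|G| * altSum X p M χ d ⊤` (D1). -/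
def YR0_stmt : Prop :=
  ∀ (G E A : Type) [Group G] [Group E] [Group A] [Finite G] [Finite E] (X : Extension G E A)
    (p : ℕ) [Fact p.Prime] (M : Ideal (integralClosure ℤ ℂ)), M.IsMaximal →
    (p : integralClosure ℤ ℂ) ∈ M → IsOp p (⊤ : Subgroup G) ⊥ → ∀ χ ∈ Irr G, Stable X M χ → ∀ d : ℤ,
    cSum p X.inc.range ⊥ ⊤ (hf p M X.inc.range X.inc.range (omega (ext0 X.inc χ)) d) = 0 → altSum X p M χ d ⊤ = 0

/-- **YNX** (short; from YR0, YNG, YTC, ST of DC). Proof: if the block is not stable: ST (`altSum ≠ 0` implies `Stable`). If it is: YTC, YNG for `G₀ = X.inc.range` in the group `E`, YR0. -/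
def YNX_stmt : Prop :=
  ∀ (p e m : ℕ) (M : Ideal (integralClosure ℤ ℂ)), Setup p M → 2 * m + bz p + m / 2 ≤ e → 2 * m + 5 ≤ e →
    ∀ (G E A : Type) [Group G] [Group E] [Group A] [Finite G] [Finite E] (X : Extension G E A), IsOp p (⊤ : Subgroup G) ⊥ →
    ∀ χ ∈ Irr G, ∀ z x : G, Ucl p e m M (⊤ : Subgroup G) χ z x → ∀ d : ℤ, altSum X p M χ d ⊤ = 0

/-- **YNU** (short; from YNX, RE of DC, D13 of DI, DG6, CLS, TPR, NEG, SYL; the last part as in NDQ, grep `theorem NDQ`). THE FINAL STATEMENT: Q1 in full. Proof: as in NDQ the defect group gives `Ucl p e m M ⊤ χ z x`. D13 for `a V = altSum X p M χ d V`: for `V` the sum over the subgroups which contain `V` is `altSum (resE X V) p M χ d ⊤` (RE), `0` by YNX for the extension `resE X V` of the same group `G` (`A` is finite as `X.proj` is surjective). -/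
def YNU_stmt : Prop :=
  ∀ (p e m : ℕ) (M : Ideal (integralClosure ℤ ℂ)), Setup p M → 2 * m + bz p + m / 2 ≤ e → 2 * m + 5 ≤ e →
    ∀ (G E A : Type) [Group G] [Group E] [Group A] [Finite G] [Finite E] (X : Extension G E A), IsOp p (⊤ : Subgroup G) ⊥ →
    ∀ χ ∈ Irr G, ∀ D : Subgroup G, Pool.Agent.MAP.DefectGroup p M χ D → Nat.card D ≤ p ^ (e + m) →
    ∀ z ∈ D, (∀ d ∈ D, z * d = d * z) → orderOf z = p ^ e → ∀ (d : ℤ) (U : Subgroup A), altSum X p M χ d U = 0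

end Pool.Agent.NE
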