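import Pool.Agent.helper37.NE.SpecA
import Pool.Agent.helper13.DI.B10
import Pool.Agent.helper23.ND.GCL

/-! MP_baa4d7_al, THEOREM NE: row YCL (Clifford theory for a cyclic extension) -/

set_option autoImplicit false

namespace Pool.Agent.NE

open Pool.Agent.helper58.DC Pool.Agent.DI Pool.Agent.GR Pool.Agent.OB Pool.Agent.DR Pool.Agent.FI Pool.Agent.FI3 Pool.Agent.FI4 Pool.Agent.FI4I Pool.Agent.LE Pool.Agent.L5 Pool.Agent.NAB Pool.Agent.ND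

namespace YCLh

variable {G : Type} [Group G]

theorem yo_one (ψ : G → ℂ) : cjF 1 ψ = ψ := by
  funext g
  simp [cjF, funMap]

theorem yo_mul (a b : G) (ψ : G → ℂ) : cjF (a * b) ψ = cjF a (cjF b ψ) := by
  funext g
  simp [cjF, funMap, mul_assoc]

/-- elements of `K` fix the characters of `K` -/
theorem yo_mem (hB2 : B2_stmt) [Finite G] (K : Subgroup G) (ψ : G → ℂ) (hψ : ψ ∈ IrrOn K) (k : G) (hk : k ∈ K) : cjF k ψ = ψ := by
  have h := (hB2 G K).2 ψ hψ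
  funext g
  have h1 : cjF k ψ g = ψ (k⁻¹ * g * k) := by
    simp [cjF, funMap]
  rw [h1]
  have h2 := h.2.1 g (k⁻¹) (K.inv_mem hk)
  rw [inv_inv] at h2
  exact h2

open Pointwise in
/-- `K ⊔ zpowers s` for `s ∈ nz K` -/
theorem mem_sup (K : Subgroup G) (s : G) (hs : s ∈ nz K) (x : G) :
    x ∈ K ⊔ Subgroup.zpowers s ↔ ∃ n : ℤ, ∃ k ∈ K, x = s ^ n * k := by
  constructor
  · intro hx
    have h1 : x ∈ (Subgroup.zpowers s ⊔ K : Subgroup G) := by rwa [sup_comm] at hx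
    have hle : Subgroup.zpowers s ≤ nz K := by
      rw [Subgroup.zpowers_le]; exact hs
    have h2 : ((Subgroup.zpowers s ⊔ K : Subgroup G) : Set G) = (Subgroup.zpowers s : Set G) * (K : Set G) :=
      Subgroup.coe_mul_of_left_le_normalizer_right _ _ hle
    have h3 : x ∈ (Subgroup.zpowers s : Set G) * (K : Set G) := by rw [← h2]; exact h1
    obtain ⟨a, ⟨n, rfl⟩, k, hk, rfl⟩ := Set.mem_mul.1 h3
    exact ⟨n, k, hk, rfl⟩
  · rintro ⟨n, k, hk, rfl⟩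
    exact Subgroup.mul_mem _ (Subgroup.mem_sup_right (Subgroup.zpow_mem _ (Subgroup.mem_zpowers s) n)) (Subgroup.mem_sup_left hk)

theorem le_nz (K : Subgroup G) (s : G) (hs : s ∈ nz K) : K ⊔ Subgroup.zpowers s ≤ nz K :=
  sup_le Subgroup.le_normalizer (by rw [Subgroup.zpowers_le]; exact hs)

theorem cyc (K : Subgroup G) (s : G) (hs : s ∈ nz K) : CycQ (K.subgroupOf (K ⊔ Subgroup.zpowers s)) := by
  refine ⟨?_, ⟨⟨s, Subgroup.mem_sup_right (Subgroup.mem_zpowers s)⟩, ?_⟩⟩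
  · refine ⟨fun n hn g => ?_⟩
    rw [Subgroup.mem_subgroupOf] at hn ⊢
    have h1 := le_nz K s hs g.2
    rw [Subgroup.mem_normalizer_iff] at h1
    exact (h1 _).1 hn
  · intro x
    obtain ⟨n, k, hk, h⟩ := (mem_sup K s hs x.1).1 x.2
    refine ⟨-n, ?_⟩
    rw [Subgroup.mem_subgroupOf]
    have h1 : (((⟨s, Subgroup.mem_sup_right (Subgroup.mem_zpowers s)⟩ : (K ⊔ Subgroup.zpowers s : Subgroup G)) ^ (-n) * x : (K ⊔ Subgroup.zpowers s : Subgroup G)) : G) = k := by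
      rw [Subgroup.coe_mul, Subgroup.coe_zpow, h, ← mul_assoc, ← zpow_add, neg_add_cancel, zpow_zero, one_mul]
    rw [h1]
    exact hk

/-- the conjugates under `K ⊔ zpowers s` are the conjugates under the powers of `s` -/
theorem orbit (hB2 : B2_stmt) [Finite G] (K : Subgroup G) (s : G) (hs : s ∈ nz K) (ψ : G → ℂ) (hψ : ψ ∈ IrrOn K) (ψ' : G → ℂ) :
    (∃ n ∈ K ⊔ Subgroup.zpowers s, ψ' = cjF n ψ) ↔ ∃ k : ℕ, ψ' = cjF (s ^ k) ψ := by
  constructor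
  · rintro ⟨n, hn, rfl⟩
    obtain ⟨m, k, hk, rfl⟩ := (mem_sup K s hs n).1 hn
    obtain ⟨j, hj⟩ : ∃ j : ℕ, s ^ j = s ^ m := by
      have h1 : s ^ m ∈ Subgroup.zpowers s := ⟨m, rfl⟩
      have h2 := (isOfFinOrder_of_finite s).mem_powers_iff_mem_zpowers.2 h1
      obtain ⟨j, hj⟩ := h2
      exact ⟨j, hj⟩
    refine ⟨j, ?_⟩
    rw [yo_mul, yo_mem hB2 K ψ hψ k hk, hj]
  · rintro ⟨k, rfl⟩
    exact ⟨s ^ k, Subgroup.mem_sup_right (Subgroup.pow_mem _ (Subgroup.mem_zpowers s) k), rfl⟩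

end YCLh

open YCLh

theorem YCL (hIRT : IRT_stmt) (hB9 : B9_stmt) (hCCJ : CCJ_stmt) (hB2 : B2_stmt) : YCL_stmt := by
  classical
  intro G _ _ K s hs
  set L : Subgroup G := K ⊔ Subgroup.zpowers s with hL
  have hKL : K ≤ L := le_sup_left
  have hno : L ≤ nz K := le_nz K s hs
  have hcyc : CycQ (K.subgroupOf L) := cyc K s hs
  have hinf : L ⊓ K = K := inf_eq_right.2 hKL
  obtain ⟨h9, h9b, -⟩ := hB9 L (K.subgroupOf L) hcyc
  -- the restriction of a character of `L`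
  have hres : ∀ φ ∈ IrrOn L, ∃ ψ ∈ IrrOn K, OverP K L φ ψ := by
    intro φ hφ
    obtain ⟨ψ', hψ', hov⟩ := h9 (B10_res L φ) hφ.2
    have hres : B10_res L (B10_ex L ψ') = ψ' := B10_res_ex L ψ'
    have hsup : ∀ g, g ∉ L → B10_ex L ψ' g = 0 := B10_ex_supp L ψ'
    refine ⟨B10_ex L ψ', ?_, ?_⟩
    · have h1 := (B10_irrK L hIRT K (B10_ex L ψ') hsup).2 (by rw [hres]; exact hψ')
      rwa [hinf] at h1
    · have h1 := (B10_over L K φ (B10_ex L ψ') hsup).2 (by rw [hres]; exact hov)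
      rwa [hinf] at h1
  have hmt : ∀ φ, ∀ ψ ∈ IrrOn K, OverP K L φ ψ → ∀ ξ ∈ IrrOn K,
      mt K φ ξ = if ∃ n ∈ L, ξ = funMap (MulAut.conj n) ψ then ((1 : ℕ) : ℂ) else 0 := by
    intro φ ψ hψ hov ξ hξ
    obtain ⟨-, hc2, -, -⟩ := hCCJ G K L hno ψ hψ
    have hovE : OverE K L φ ψ 1 := by
      intro x hx
      rw [hov x hx, Nat.cast_one, one_mul]
    have h3 := (hc2 φ 1).1 hovE
    exact GCL_mt hB2 K φ ξ hξ (fun θ => if ∃ n ∈ L, θ = funMap (MulAut.conj n) ψ then ((1 : ℕ) : ℂ) else 0) h3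
  refine ⟨?_, ?_, ?_, ?_⟩
  · intro φ hφ
    obtain ⟨ψ, hψ, hov⟩ := hres φ hφ
    refine ⟨ψ, hψ, ?_⟩
    rw [hmt φ ψ hψ hov ψ hψ, if_pos ⟨1, L.one_mem, (yo_one ψ).symm⟩]
    simp
  · intro ψ hψ
    have hψL : ∀ g, g ∉ L → ψ g = 0 := fun g hg => hψ.1 g (fun h => hg (hKL h))
    have h1 : B10_res L ψ ∈ IrrOn (K.subgroupOf L) := by
      have h2 := (B10_irrK L hIRT K ψ hψL).1 (by rw [hinf]; exact hψ)
      exact h2
    have h2 := h9b (B10_res L ψ) h1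
    have h3 : 0 < Nat.card (stF (⊤ : Subgroup L) (B10_res L ψ)) := Nat.card_pos
    have h4 : Nat.card {φ : L → ℂ // φ ∈ Irr L ∧ OverP (K.subgroupOf L) ⊤ φ (B10_res L ψ)} ≠ 0 := by
      intro h5
      rw [h5, zero_mul] at h2
      omega
    obtain ⟨⟨φ, hφ, hov⟩⟩ := (Nat.card_ne_zero.1 h4).1
    refine ⟨B10_ex L φ, B10_ex_irr L φ hφ, ?_⟩
    have hov2 : OverP K L (B10_ex L φ) ψ := by
      have h5 := (B10_over L K (B10_ex L φ) ψ hψL).2 (by rw [B10_res_ex]; exact hov)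
      rwa [hinf] at h5
    rw [hmt _ ψ hψ hov2 ψ hψ, if_pos ⟨1, L.one_mem, (yo_one ψ).symm⟩]
    simp
  · intro φ hφ ψ hψ
    obtain ⟨ψ₀, hψ₀, hov⟩ := hres φ hφ
    rw [hmt φ ψ₀ hψ₀ hov ψ hψ]
    split_ifs
    · exact Or.inr Nat.cast_one
    · exact Or.inl rfl
  · intro φ hφ ψ hψ ψ' hψ' hne
    obtain ⟨ψ₀, hψ₀, hov⟩ := hres φ hφ
    rw [hmt φ ψ₀ hψ₀ hov ψ hψ] at hne
    have h1 : ∃ n ∈ L, ψ = cjF n ψ₀ := by
      by_contra hno2
      exact hne (if_neg hno2)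
    rw [hmt φ ψ₀ hψ₀ hov ψ' hψ', ← orbit hB2 K s hs ψ hψ ψ']
    obtain ⟨n, hn, rfl⟩ := h1
    constructor
    · intro h2
      have h3 : ∃ n ∈ L, ψ' = cjF n ψ₀ := by
        by_contra hno2
        exact h2 (if_neg hno2)
      obtain ⟨m, hm, rfl⟩ := h3
      refine ⟨m * n⁻¹, L.mul_mem hm (L.inv_mem hn), ?_⟩
      rw [← yo_mul, inv_mul_cancel_right]
    · rintro ⟨m, hm, rfl⟩
      rw [if_pos ⟨m * n, L.mul_mem hm hn, (yo_mul m n ψ₀).symm⟩]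
      simp

end Pool.Agent.NE
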