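import Mathlib
import Pool.Agent.helper12.FI.All
import Pool.Agent.helper14.NE.YNX
import Pool.Agent.helper16.NE.YAV
import Pool.Agent.helper16.NE.YUE
import Pool.Agent.helper18.NE.YKC
import Pool.Agent.helper21.NE.YCB
import Pool.Agent.helper22.FI.AllA
import Pool.Agent.helper22.NE.YFF
import Pool.Agent.helper22.OB.AllG
import Pool.Agent.helper23.NE.YTD
import Pool.Agent.helper24.NE.YNF
import Pool.Agent.helper26.NE.YEA
import Pool.Agent.helper27.NE.YGK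
import Pool.Agent.helper27.NE.YNU
import Pool.Agent.helper3.NE.YEB
import Pool.Agent.helper30.NE.YBE
import Pool.Agent.helper34.NE.YLN
import Pool.Agent.helper35.DR.All
import Pool.Agent.helper35.DR.AllDI
import Pool.Agent.helper37.NA.All
import Pool.Agent.helper37.NA.AllE
import Pool.Agent.helper37.ND.All
import Pool.Agent.helper37.NE.SpecC
import Pool.Agent.helper37.NE.YCL
import Pool.Agent.helper39.NE.YPF
import Pool.Agent.helper4.NE.YDF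
import Pool.Agent.helper4.NE.YTR
import Pool.Agent.helper48.NE.YSN
import Pool.Agent.helper51.NE.YGD
import Pool.Agent.helper53.NE.YGR
import Pool.Agent.helper58.FI.AllC
import Pool.Agent.helper59.FI4.AllI
import Pool.Agent.helper65.NE.YNC
import Pool.Agent.helper66.NE.YGA
import Pool.Agent.helper66.NE.YRW
import Pool.Agent.helper67.NE.YUL
import Pool.Agent.helper69.NE.YHC
import Pool.Agent.helper69.NE.YRI
import Pool.Agent.helper71.NE.YR0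
import Pool.Agent.helper72.NE.YFY
import Pool.Agent.helper73.NE.YNG
import Pool.Agent.helper73.NE.YTG
import Pool.Agent.helper75.NE.YRS
import Pool.Agent.helper75.NE.YST
import Pool.Agent.helper8.NE.YUP
import Pool.Agent.helper83.GR.All
import Pool.Agent.helper83.NE.YWF
import Pool.Agent.helper89.NE.YCV
import Pool.Agent.helper90.NE.YIX
import Pool.Agent.helper92.NE.YTC
import Pool.Agent.helper95.NE.YNL
import Pool.Agent.helper95.NE.YPT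
import Pool.Agent.helper95.NE.YUX
import Pool.Agent.helper98.NE.YGW
import Pool.Agent.helper99.NE.YSW

/-!
# MP_baa4d7_al, THEOREM NE: all rows without hypotheses (specifications: `helper37/NE/SpecA`, `SpecB`, `SpecC`)
-/

set_option autoImplicit false

namespace Pool.Agent.NE.All

open Pool.Agent.helper58.DC Pool.Agent.DI Pool.Agent.GR Pool.Agent.OB Pool.Agent.DR Pool.Agent.FI Pool.Agent.FI3 Pool.Agent.FI4 Pool.Agent.FI4I Pool.Agent.FI4E Pool.Agent.LE Pool.Agent.L5 Pool.Agent.NAB Pool.Agent.ND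

theorem yYKC : YKC_stmt := NE.YKC ND.All.nKCH
theorem yYCL : YCL_stmt := NE.YCL GR.All.dIRT DR.AllDI.iB9 DR.All.rCCJ GR.All.dB2
theorem yYLN : YLN_stmt := NE.YLN DR.AllDI.iB5 DR.AllDI.iB6
theorem yYGW : YGW_stmt := NE.YGW 
theorem yYGR : YGR_stmt := NE.YGR yYLN yYCL yYGW GR.All.dB2 GR.All.dEXP
theorem yYRI : YRI_stmt := NE.YRI yYCL yYGW ND.All.nZLM GR.All.dB2 GR.All.dEXP
theorem yYPT : YPT_stmt := NE.YPT 
theorem yYTG : YTG_stmt := NE.YTG 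
theorem yYGA : YGA_stmt := NE.YGA ND.All.nGBC
theorem yYUE : YUE_stmt := NE.YUE ND.All.nGBC NAB.All.aNXU NAB.All.aNUF NAB.All.aNQU NAB.All.aNUB ND.All.nZGP ND.All.nZNU NAB.All.aNEG FI.AllC.cFEQ
theorem yYGK : YGK_stmt := NE.YGK yYKC yYUE ND.All.nGAC ND.All.nGSY ND.All.nGNV ND.All.nGQQ ND.All.nGKE NAB.All.aNMP ND.All.nGST FI.AllA.dTPR GR.All.dB2
theorem yYGD : YGD_stmt := NE.YGD yYUE ND.All.nGVF ND.All.nGDF
theorem yYST : YST_stmt := NE.YST yYGA yYGK yYGD ND.All.nGOU ND.All.nGST ND.All.nGOS ND.All.nGS4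
theorem yYTR : YTR_stmt := NE.YTR FI4I.AllI.iTR1 FI4I.AllI.iTR2 FI4I.AllI.iTR3 NAB.All.aNTK
theorem yYSN : YSN_stmt := NE.YSN yYST yYTR FI4I.AllI.iTR1 FI4I.AllI.iTR2 FI4I.AllI.iTR3 NAB.All.aNTK NAB.All.aNEG
theorem yYIX : YIX_stmt := NE.YIX 
theorem yYUL : YUL_stmt := NE.YUL DR.All.rCFA
theorem yYCV : YCV_stmt := NE.YCV DR.All.rCFA GR.All.dEIN GR.All.dIDM FI.AllA.dSBI GR.All.dB2
theorem yYDF : YDF_stmt := NE.YDF yYCL yYIX FI.AllA.dDUN FI.AllA.dDCM FI.AllA.dSBI FI.AllA.dCLS GR.All.dEIN GR.All.dIDM GR.All.dEXP GR.All.dB2 DR.AllDI.iB5 DR.AllDI.iB6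
theorem yYBE : YBE_stmt := NE.YBE NAB.All.aNUF NAB.All.aNQU NAB.All.aNUB ND.All.nZNU ND.All.nZGP NAB.All.aNEG
theorem yYSW : YSW_stmt := NE.YSW NAB.All.aNUB FI.AllA.dCJG ND.All.nZGP ND.All.nZLM FI.AllC.cFEQ
theorem yYUX : YUX_stmt := NE.YUX yYCV yYUL yYDF yYGW yYSW yYBE FI.AllA.dEXB NAB.All.aNUB NAB.All.aNUH NAB.All.aNUD FI.AllA.dDEX FI.AllA.dDGL ND.All.nZNU ND.All.nZGP FI.AllA.dCJG
theorem yYUP : YUP_stmt := NE.YUP yYUL yYGW yYSW yYBE NAB.All.aNUB NAB.All.aNUX NAB.All.aNUF FI.AllA.dCJG ND.All.nZGP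
theorem yYFY : YFY_stmt := NE.YFY yYGW ND.All.nZLM ND.All.nZGP ND.All.nGOB
theorem yYAV : YAV_stmt := NE.YAV yYFY ND.All.nGOB
theorem yYHC : YHC_stmt := NE.YHC ND.All.nZGP
theorem yYFF : YFF_stmt := NE.YFF yYAV
theorem yYRS : YRS_stmt := NE.YRS yYCL FI.AllQ.qQRS FI.AllC.cFEQ GR.All.dB2
theorem yYRW : YRW_stmt := NE.YRW yYSN yYUP yYUX FI.AllA.dCJG ND.All.nZGP
theorem yYEA : YEA_stmt := NE.YEA yYRS yYRW yYRI yYSW yYCL yYGW ND.All.nZLM GR.All.dB2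
theorem yYEB : YEB_stmt := NE.YEB yYEA yYAV yYGR yYCL yYGW FI.AllA.dCJG
theorem yYPF : YPF_stmt := NE.YPF yYHC yYSW
theorem yYWF : YWF_stmt := NE.YWF yYPF yYEB yYFF yYSW yYSN yYCL yYGW
theorem yYNC : YNC_stmt := NE.YNC yYWF yYSN yYFF yYBE yYSW yYPT ND.All.nZNU ND.All.nZGP NAB.All.aNUB FI.AllA.dCJG ND.All.nTEX GR.All.dB2
theorem yYTD : YTD_stmt := NE.YTD NAB.All.aNEG NAB.All.aNUB FI.AllA.dCJG NAB.All.aNUF NAB.All.aNUE
theorem yYNL : YNL_stmt := NE.YNL NAB.AllE.eXPB yYNC yYTD NAB.All.aNUH NAB.All.aNUX FI.AllA.dTRN GR.All.dB2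
theorem yYNF : YNF_stmt := NE.YNF yYNL yYTG NAB.All.aNEG
theorem yYCB : YCB_stmt := NE.YCB NAB.All.aNFV DR.All.rCFA FI.AllA.dEXB FI.AllA.dTRN NAB.All.aNOB FI.AllA.dDCM FI.AllA.dCLS
theorem yYNG : YNG_stmt := NE.YNG yYNF yYCB FI.AllC.cFNO
theorem yYTC : YTC_stmt := NE.YTC DR.AllDI.iB13 FI.AllA.dTPR FI.AllA.dDCM
theorem yYR0 : YR0_stmt := NE.YR0 DR.All.rRPA DR.All.rRST DR.AllDI.iD1 DR.AllDI.iB13 GR.All.dB2
theorem yYNX : YNX_stmt := NE.YNX yYR0 yYNG yYTC DR.AllDI.iSTx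
theorem yYNU : YNU_stmt := NE.YNU yYNX DR.AllDI.iREx DR.AllDI.iD13 NAB.All.aNEG OB.AllG.gDG6 FI.AllA.dCLS FI.AllA.dTPR FI.AllA.dSYL

end Pool.Agent.NE.All
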