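import Mathlib
import Pool.Agent.helper37.NE.All
import Pool.Agent.helper37.ND.FinT
import Pool.Agent.helper26.NE.INF

/-!
# MP_baa4d7_al, THEOREM NE: the final theorem (every `d`, every `U`, EVERY extension `E`)
-/

set_option autoImplicit false

namespace Pool.Agent.NDS

open Pool.Agent.helper58.DC Pool.Agent.DI

/-- Finite extensions. -/
theorem FinN_fin (p : ℕ) (hpr : p.Prime) (M : Ideal (integralClosure ℤ ℂ)) (hM : M.IsMaximal)
    (hp : (p : integralClosure ℤ ℂ) ∈ M) (G : Type) [Group G] [Finite G] (hG : IsOp p (⊤ : Subgroup G) ⊥)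
    (χ : G → ℂ) (hχ : χ ∈ Irr G) (D : Subgroup G) (hD : Pool.Agent.MAP.DefectGroup p M χ D)
    (hL : LargeCentral p D ∨ LargeCyclicSubgroup p D)
    (E A : Type) [Group E] [Group A] [Finite E] (X : Extension G E A) (d : ℤ) (U : Subgroup A) :
    altSum X p M χ d U = 0 := by
  have hDp : IsPGroup p D := by
    obtain ⟨x, -, -, -, h, -⟩ := hD
    exact h
  have hL' : LargeCentral p D := by
    rcases hL with h | h
    · exact h
    · exact cyclic_central hpr D hDp h
  obtain ⟨e, m, z, hz, hzc, hoz, hcard, hem, hem'⟩ := hL'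
  exact Pool.Agent.NE.All.yYNU p e m M ⟨hpr, hM, hp⟩ (by unfold Pool.Agent.NAB.bz; omega) hem' G E A X hG χ hχ D hD hcard z hz
    (fun d hd => hzc d hd) hoz d U

/-- Dade's invariant conjecture in full for blocks whose defect group has a large central cyclic subgroup. -/
theorem FinN_dade (p : ℕ) (hpr : p.Prime) (M : Ideal (integralClosure ℤ ℂ)) (hM : M.IsMaximal)
    (hp : (p : integralClosure ℤ ℂ) ∈ M) (G : Type) [Group G] [Finite G] (hG : IsOp p (⊤ : Subgroup G) ⊥)
    (χ : G → ℂ) (hχ : χ ∈ Irr G) (D : Subgroup G) (hD : Pool.Agent.MAP.DefectGroup p M χ D)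
    (hL : LargeCentral p D ∨ LargeCyclicSubgroup p D)
    (E A : Type) [Group E] [Group A] (X : Extension G E A) (d : ℤ) (U : Subgroup A) :
    altSum X p M χ d U = 0 :=
  Pool.Agent.NEI.main X p M χ d (fun E' A' _ _ _ X' U' =>
    FinN_fin p hpr M hM hp G hG χ hχ D hD hL E' A' X' d U') U

end Pool.Agent.NDS
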